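import Mathlib

set_option autoImplicit false

/-!
# Inaccessible cardinals and a Delta system argument
-/

namespace Pool.Agent.W873.Vi

open Set Cardinal

abbrev Ik (κ : Cardinal.{0}) : Type := κ.ord.ToType

/-- the countable ordinals -/
abbrev W : Type := (ℵ₁ : Cardinal.{0}).ord.ToType

variable {κ : Cardinal.{0}}

theorem W_bdd (s : Set W) (hs : s.Countable) : ∃ δ : W, ∀ x ∈ s, x < δ := by
  by_contra hcon
  push Not at hcon
  have h1 : IsCofinal s := fun β => by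
    obtain ⟨x, hx, h⟩ := hcon β
    exact ⟨x, hx, h⟩
  have h2 := Order.cof_le h1
  rw [Ordinal.cof_toType, isRegular_aleph_one.cof_ord] at h2
  exact absurd (h2.trans hs.le_aleph0) (not_le.2 aleph0_lt_aleph_one)

theorem bddK (hκ : κ.IsRegular) (S : Set (Ik κ)) (hS : #S < κ) :
    ∃ β : Ik κ, ∀ x ∈ S, x < β := by
  by_contra hcon
  push Not at hcon
  have h1 : IsCofinal S := fun β => by
    obtain ⟨x, hx, h⟩ := hcon β
    exact ⟨x, hx, h⟩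
  have h2 := Order.cof_le h1
  rw [Ordinal.cof_toType, hκ.cof_ord] at h2
  exact absurd h2 (not_le.2 hS)

theorem mk_IioK (x : Ik κ) : #(Set.Iio x) < κ := by
  have h := mk_Iio_lt x (by simp)
  rwa [mk_ord_toType] at h

theorem lt_set (hκ : κ.IsInaccessible) {A : Type} (hA : #A < κ) : #(Set A) < κ := by
  rw [mk_set]
  exact hκ.isStrongPrelimit hA

theorem lt_prod (hκ : κ.IsInaccessible) {A B : Type} (hA : #A < κ) (hB : #B < κ) :
    #(A × B) < κ := by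
  rw [mk_prod, Cardinal.lift_id, Cardinal.lift_id]
  exact mul_lt_of_lt hκ.aleph0_lt.le hA hB

theorem lt_fun (hκ : κ.IsInaccessible) {A B : Type} (hA : #A < κ) (hB : #B < κ) :
    #(A → B) < κ := by
  refine lt_of_le_of_lt ?_ (lt_set hκ (lt_prod hκ hA hB))
  refine mk_le_of_injective (f := fun (f : A → B) => {x : A × B | x.2 = f x.1}) ?_
  intro f g h
  funext a
  have h1 : (a, f a) ∈ {x : A × B | x.2 = f x.1} := rfl
  simp only at h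
  rw [h] at h1
  exact h1

theorem lt_nat (hκ : κ.IsInaccessible) : #ℕ < κ := by
  rw [mk_nat]
  exact hκ.aleph0_lt

theorem aleph1_lt (hκ : κ.IsInaccessible) : ℵ₁ < κ := by
  refine lt_of_le_of_lt ?_ (hκ.isStrongPrelimit hκ.aleph0_lt)
  rw [← succ_aleph0]
  exact Order.succ_le_of_lt (cantor ℵ₀)

theorem lt_W (hκ : κ.IsInaccessible) : #W < κ := by
  rw [mk_ord_toType]
  exact aleph1_lt hκ

theorem lt_iUnion (hκ : κ.IsRegular) {ι A : Type} (hι : #ι < κ) (S : ι → Set A)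
    (hS : ∀ i, #(S i) < κ) : #(⋃ i, S i) < κ := by
  refine lt_of_le_of_lt (mk_iUnion_le_sum_mk (f := S)) ?_
  exact sum_lt_of_isRegular hκ hι hS

/-- a closed ordinal of uncountable cofinality -/
theorem exists_closed (hκ : κ.IsInaccessible) (h : Ik κ → Ik κ) : ∃ δ : Ik κ,
    (∀ α < δ, h α < δ) ∧ ∀ S : Set (Ik κ), S.Countable → (∀ x ∈ S, x < δ) →
      ∃ α < δ, ∀ x ∈ S, x < α := by
  classical
  have hH : ∀ α : Ik κ, ∃ β, ∀ x ∈ insert α (h '' Iic α), x < β := by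
    intro α
    refine bddK hκ.isRegular _ ?_
    refine (mk_insert_le).trans_lt (add_lt_of_lt hκ.aleph0_lt.le ?_ (one_lt_aleph0.trans hκ.aleph0_lt))
    refine mk_image_le.trans_lt ?_
    have h1 : (Iic α : Set (Ik κ)) = insert α (Iio α) := by
      ext x
      simp only [mem_Iic, mem_insert_iff, mem_Iio]
      exact le_iff_eq_or_lt
    rw [h1]
    exact (mk_insert_le).trans_lt (add_lt_of_lt hκ.aleph0_lt.le (mk_IioK α)
      (one_lt_aleph0.trans hκ.aleph0_lt))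
  choose H hH using hH
  have hH1 : ∀ α, α < H α := fun α => hH α α (mem_insert _ _)
  have hH2 : ∀ α, ∀ α' ≤ α, h α' < H α := fun α α' hα => hH α _ (Or.inr ⟨α', hα, rfl⟩)
  have hne : Nonempty (Ik κ) := by
    rw [← mk_ne_zero_iff, mk_ord_toType]
    exact hκ.ne_zero
  let bd : Set (Ik κ) → Ik κ := fun S => if h : ∃ β, ∀ x ∈ S, x < β then h.choose else hne.some
  have hbd : ∀ S : Set (Ik κ), #S < κ → ∀ x ∈ S, x < bd S := by
    intro S hS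
    have h1 := bddK hκ.isRegular S hS
    change ∀ x ∈ S, x < if h : ∃ β, ∀ x ∈ S, x < β then h.choose else hne.some
    rw [dif_pos h1]
    exact h1.choose_spec
  let wf := wellFounded_lt (α := W)
  let Fd : ∀ γ : W, (∀ γ' : W, γ' < γ → Ik κ) → Ik κ := fun γ ih =>
    bd {x | ∃ γ', ∃ h : γ' < γ, x = H (ih γ' h)}
  let d : W → Ik κ := wf.fix Fd
  have hd : ∀ γ, d γ = bd {x | ∃ γ', ∃ _ : γ' < γ, x = H (d γ')} := fun γ => wf.fix_eq Fd γ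
  have hd1 : ∀ γ γ' : W, γ' < γ → H (d γ') < d γ := by
    intro γ γ' hγ
    rw [hd γ]
    refine hbd _ ?_ _ ⟨γ', hγ, rfl⟩
    have h1 : {x | ∃ γ', ∃ _ : γ' < γ, x = H (d γ')} ⊆ (fun γ' => H (d γ')) '' Iio γ := by
      rintro _ ⟨γ', h, rfl⟩
      exact ⟨γ', h, rfl⟩
    refine (mk_le_mk_of_subset h1).trans_lt (mk_image_le.trans_lt ?_)
    exact (mk_set_le _).trans_lt (lt_W hκ)
  have hWmax : ∀ γ : W, ∃ γ', γ < γ' := by
    intro γ
    obtain ⟨δ, hδ⟩ := W_bdd {γ} (countable_singleton γ)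
    exact ⟨δ, hδ γ rfl⟩
  obtain ⟨δ0, hδ0⟩ := bddK hκ.isRegular (range d) (mk_range_le.trans_lt (lt_W hκ))
  have hne' : ({δ | ∀ γ, d γ < δ} : Set (Ik κ)).Nonempty := ⟨δ0, fun γ => hδ0 _ ⟨γ, rfl⟩⟩
  obtain ⟨δ, h1, h2⟩ := WellFounded.has_min (wellFounded_lt (α := Ik κ)) _ hne'
  have h3 : ∀ α < δ, ∃ γ, α ≤ d γ := by
    intro α hα
    by_contra hcon
    push Not at hcon
    exact h2 α hcon hα
  refine ⟨δ, fun α hα => ?_, fun S hS hSδ => ?_⟩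
  · obtain ⟨γ, hγ⟩ := h3 α hα
    obtain ⟨γ', hγ'⟩ := hWmax γ
    exact (hH2 (d γ) α hγ).trans ((hd1 γ' γ hγ').trans (h1 γ'))
  · have h4 : ∀ x : S, ∃ γ, x.1 ≤ d γ := fun x => h3 x.1 (hSδ x.1 x.2)
    choose γ hγ using h4
    have : Countable S := hS.to_subtype
    obtain ⟨γs, hγs⟩ := W_bdd (range γ) (countable_range γ)
    refine ⟨d γs, h1 γs, fun x hx => ?_⟩
    exact (hγ ⟨x, hx⟩).trans_lt ((hH1 _).trans (hd1 γs _ (hγs _ ⟨⟨x, hx⟩, rfl⟩)))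

/-- two of `κ` countable partial functions are compatible -/
theorem delta (hκ : κ.IsInaccessible) {I V : Type} (v0 : V) (f : Ik κ → I → V)
    (hc : ∀ ξ, {i | f ξ i ≠ v0}.Countable) (hv : ∀ i, #(range fun ξ => f ξ i) < κ) :
    ∃ η ξ, η < ξ ∧ ∀ i, f η i = v0 ∨ f ξ i = v0 ∨ f η i = f ξ i := by
  classical
  let E : Ik κ → Set I := fun γ => ⋃ η : Iio γ, {i | f η i ≠ v0}
  have hE : ∀ γ, #(E γ) < κ := fun γ => lt_iUnion hκ.isRegular (mk_IioK γ) _ fun η =>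
    ((hc η).le_aleph0).trans_lt hκ.aleph0_lt
  let g : Ik κ → Ik κ → I → V := fun γ ξ i => if i ∈ E γ then f ξ i else v0
  have hg : ∀ γ, #(range (g γ)) < κ := by
    intro γ
    let V' : Set V := ⋃ i : E γ, range fun ξ => f ξ i.1
    have hV' : #V' < κ := lt_iUnion hκ.isRegular (hE γ) _ fun i => hv i.1
    refine lt_of_le_of_lt ?_ (lt_fun hκ (hE γ) hV')
    have h1 : ∀ s : range (g γ), ∀ i : E γ, s.1 i ∈ V' := by
      rintro ⟨_, ξ, rfl⟩ i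
      refine mem_iUnion.2 ⟨i, ξ, ?_⟩
      change f ξ i.1 = if i.1 ∈ E γ then f ξ i.1 else v0
      rw [if_pos i.2]
    refine mk_le_of_injective (f := fun s : range (g γ) => fun i : E γ =>
      (⟨s.1 i, h1 s i⟩ : V')) ?_
    rintro ⟨_, ξ, rfl⟩ ⟨_, ζ, rfl⟩ h
    refine Subtype.ext (funext fun i => ?_)
    by_cases hi : i ∈ E γ
    · have h2 := congrFun h ⟨i, hi⟩
      simp only [Subtype.mk.injEq] at h2
      exact h2
    · change (if i ∈ E γ then f ξ i else v0) = if i ∈ E γ then f ζ i else v0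
      rw [if_neg hi, if_neg hi]
  have hh : ∀ γ, ∃ β, ∀ ξ, ∃ ξ', γ ≤ ξ → γ ≤ ξ' ∧ ξ' < β ∧ g γ ξ' = g γ ξ := by
    intro γ
    have h1 : ∀ s : range (g γ), ∃ ξ', (∃ ξ, γ ≤ ξ ∧ g γ ξ = s.1) → γ ≤ ξ' ∧ g γ ξ' = s.1 := by
      intro s
      by_cases h : ∃ ξ, γ ≤ ξ ∧ g γ ξ = s.1
      · obtain ⟨ξ, hξ⟩ := h
        exact ⟨ξ, fun _ => hξ⟩
      · exact ⟨γ, fun h' => absurd h' h⟩
    choose w hw using h1
    obtain ⟨β, hβ⟩ := bddK hκ.isRegular (range w) (mk_range_le.trans_lt (hg γ))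
    refine ⟨β, fun ξ => ⟨w ⟨g γ ξ, ξ, rfl⟩, fun hξ => ?_⟩⟩
    obtain ⟨h2, h3⟩ := hw ⟨g γ ξ, ξ, rfl⟩ ⟨ξ, hξ, rfl⟩
    exact ⟨h2, hβ _ ⟨_, rfl⟩, h3⟩
  choose h hh using hh
  obtain ⟨δ, hδ1, hδ2⟩ := exists_closed hκ h
  have h1 : ∀ i : {i | f δ i ≠ v0 ∧ i ∈ E δ}, ∃ η < δ, f η i.1 ≠ v0 := by
    rintro ⟨i, _, hi⟩
    obtain ⟨η, hη⟩ := mem_iUnion.1 hi
    exact ⟨η.1, η.2, hη⟩
  choose e he1 he2 using h1
  have hcnt : {i | f δ i ≠ v0 ∧ i ∈ E δ}.Countable := (hc δ).mono fun i hi => hi.1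
  have : Countable {i | f δ i ≠ v0 ∧ i ∈ E δ} := hcnt.to_subtype
  obtain ⟨γ, hγδ, hγ⟩ := hδ2 (range e) (countable_range e) (by
    rintro _ ⟨i, rfl⟩
    exact he1 i)
  obtain ⟨ξ', hξ'⟩ := hh γ δ
  obtain ⟨_, h3, h4⟩ := hξ' hγδ.le
  refine ⟨ξ', δ, h3.trans (hδ1 γ hγδ), fun i => ?_⟩
  by_cases h5 : f ξ' i = v0
  · exact Or.inl h5
  by_cases h6 : f δ i = v0
  · exact Or.inr (Or.inl h6)
  refine Or.inr (Or.inr ?_)
  have h7 : i ∈ E δ := mem_iUnion.2 ⟨⟨ξ', h3.trans (hδ1 γ hγδ)⟩, h5⟩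
  have h8 : i ∈ E γ := mem_iUnion.2 ⟨⟨e ⟨i, h6, h7⟩, hγ _ ⟨_, rfl⟩⟩, he2 ⟨i, h6, h7⟩⟩
  have h9 := congrFun h4 i
  change (if i ∈ E γ then f ξ' i else v0) = if i ∈ E γ then f δ i else v0 at h9
  rwa [if_pos h8, if_pos h8] at h9

end Pool.Agent.W873.Vi
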