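import Mathlib
import Pool.Agent.W873.Gp.Basic
import Pool.Agent.W873.Vi.Card

set_option autoImplicit false
set_option linter.unusedSectionVars false

/-!
# The conditions: Mitchell forcing together with Cohen subsets of `ω₁`
-/

namespace Pool.Agent.W873.Vi

open Set Cardinal Pool.Agent.Helper669.Forcing Pool.Agent.W873.Gp

/-- Cohen conditions: finite approximations to a sequence of reals -/
@[ext] structure Co (K : Type) where
  v : K → List Bool
  fin : {a | v a ≠ []}.Finite

instance (K : Type) : Preorder (Co K) where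
  le p q := ∀ a, q.v a <+: p.v a
  le_refl _ a := List.prefix_rfl
  le_trans _ _ _ h h' a := (h' a).trans (h a)

theorem Co.le_def {K : Type} {p q : Co K} : p ≤ q ↔ ∀ a, q.v a <+: p.v a := Iff.rfl

/-- the indices of the second coordinate -/
abbrev Ix (K : Type) : Type := K × W × Bool

section

variable {K : Type} [LinearOrder K]

/-- the names allowed at the index `j` -/
def NmOK (j : Ix K) (N : Set (Co K)) : Prop :=
  ∀ r ∈ N, ∀ b, (j.2.2 = true ∨ j.1 < b) → r.v b = []

variable (K) in
/-- countable partial functions whose values are names for reals -/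
@[ext] structure Ud where
  v : Ix K → Option (ℕ → Set (Co K))
  cnt : {j | v j ≠ none}.Countable
  ok : ∀ j f, v j = some f → ∀ n, NmOK j (f n)

instance : Preorder (Ud K) where
  le u u' := ∀ j f, u'.v j = some f → u.v j = some f
  le_refl _ _ _ h := h
  le_trans _ _ _ h h' j f hf := h j f (h' j f hf)

theorem Ud.le_def {u u' : Ud K} : u ≤ u' ↔ ∀ j f, u'.v j = some f → u.v j = some f := Iff.rfl

variable (K) in
/-- the conditions -/
@[ext] structure Pc where
  p : Co K
  u : Ud K

instance : Preorder (Pc K) where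
  le r s := r.p ≤ s.p ∧ ∀ j f, s.u.v j = some f → ∃ g, r.u.v j = some g ∧
    ∀ n, ∀ q ≤ r.p, (q ∈ meets (g n) ↔ q ∈ meets (f n))
  le_refl _ := ⟨le_rfl, fun _ f hf => ⟨f, hf, fun _ _ _ => Iff.rfl⟩⟩
  le_trans r s t h h' := by
    refine ⟨h.1.trans h'.1, fun j f hf => ?_⟩
    obtain ⟨g, hg, h1⟩ := h'.2 j f hf
    obtain ⟨k, hk, h2⟩ := h.2 j g hg
    exact ⟨k, hk, fun n q hq => (h2 n q hq).trans (h1 n q (hq.trans h.1))⟩

theorem Pc.le_def {r s : Pc K} : r ≤ s ↔ r.p ≤ s.p ∧ ∀ j f, s.u.v j = some f →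
    ∃ g, r.u.v j = some g ∧ ∀ n, ∀ q ≤ r.p, (q ∈ meets (g n) ↔ q ∈ meets (f n)) := Iff.rfl

theorem Pc.mk_le {p p' : Co K} {u u' : Ud K} (hp : p' ≤ p) (hu : u' ≤ u) :
    (⟨p', u'⟩ : Pc K) ≤ ⟨p, u⟩ :=
  ⟨hp, fun j f hf => ⟨f, hu j f hf, fun _ _ _ => Iff.rfl⟩⟩

theorem Pc.le_fst {r s : Pc K} (h : r ≤ s) : r.p ≤ s.p := h.1

/-- restriction and gluing -/
noncomputable def Co.mrg (A : Set K) (t p : Co K) : Co K := by
  classical
  exact ⟨fun a => if a ∈ A then t.v a else p.v a, by
    refine (t.fin.union p.fin).subset fun a ha => ?_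
    simp only [mem_ofPred_eq] at ha ⊢
    by_cases h : a ∈ A
    · rw [if_pos h] at ha
      exact Or.inl ha
    · rw [if_neg h] at ha
      exact Or.inr ha⟩

theorem Co.mrg_pos {A : Set K} {t p : Co K} {a : K} (h : a ∈ A) : (Co.mrg A t p).v a = t.v a := by
  unfold Co.mrg
  exact if_pos h

theorem Co.mrg_neg {A : Set K} {t p : Co K} {a : K} (h : a ∉ A) : (Co.mrg A t p).v a = p.v a := by
  unfold Co.mrg
  exact if_neg h

/-- the weakest Cohen condition -/
def Co.one : Co K := ⟨fun _ => [], by simp⟩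

theorem Co.le_one (p : Co K) : p ≤ Co.one := fun _ => List.nil_prefix

noncomputable def Ud.mrg (B : Set (Ix K)) (s r : Ud K) : Ud K := by
  classical
  exact ⟨fun j => if j ∈ B then s.v j else r.v j, by
    refine (s.cnt.union r.cnt).mono fun j hj => ?_
    simp only [mem_ofPred_eq] at hj ⊢
    by_cases h : j ∈ B
    · rw [if_pos h] at hj
      exact Or.inl hj
    · rw [if_neg h] at hj
      exact Or.inr hj, fun j f hf => by
    by_cases h : j ∈ B
    · rw [if_pos h] at hf
      exact s.ok j f hf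
    · rw [if_neg h] at hf
      exact r.ok j f hf⟩

theorem Ud.mrg_pos {B : Set (Ix K)} {s r : Ud K} {j : Ix K} (h : j ∈ B) :
    (Ud.mrg B s r).v j = s.v j := by
  unfold Ud.mrg
  exact if_pos h

theorem Ud.mrg_neg {B : Set (Ix K)} {s r : Ud K} {j : Ix K} (h : j ∉ B) :
    (Ud.mrg B s r).v j = r.v j := by
  unfold Ud.mrg
  exact if_neg h

def Ud.one : Ud K := ⟨fun _ => none, by simp, by simp⟩

theorem Ud.le_one (u : Ud K) : u ≤ Ud.one := fun j f hf => by simp [Ud.one] at hf

/-- gluing -/
noncomputable def glue (A : Set K) (B : Set (Ix K)) (s r : Pc K) : Pc K := ⟨Co.mrg A s.p r.p, Ud.mrg B s.u r.u⟩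

/-- restriction -/
noncomputable def res (A : Set K) (B : Set (Ix K)) (r : Pc K) : Pc K := ⟨Co.mrg A r.p Co.one, Ud.mrg B r.u Ud.one⟩

variable {A A' : Set K} {B B' : Set (Ix K)} {r s t : Pc K}

theorem res_p_pos {a : K} (h : a ∈ A) : (res A B r).p.v a = r.p.v a := Co.mrg_pos h

theorem res_p_neg {a : K} (h : a ∉ A) : (res A B r).p.v a = [] := Co.mrg_neg h

theorem res_u_pos {j : Ix K} (h : j ∈ B) : (res A B r).u.v j = r.u.v j := Ud.mrg_pos h

theorem res_u_neg {j : Ix K} (h : j ∉ B) : (res A B r).u.v j = none := Ud.mrg_neg h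

theorem glue_p_pos {a : K} (h : a ∈ A) : (glue A B s r).p.v a = s.p.v a := Co.mrg_pos h

theorem glue_p_neg {a : K} (h : a ∉ A) : (glue A B s r).p.v a = r.p.v a := Co.mrg_neg h

theorem glue_u_pos {j : Ix K} (h : j ∈ B) : (glue A B s r).u.v j = s.u.v j := Ud.mrg_pos h

theorem glue_u_neg {j : Ix K} (h : j ∉ B) : (glue A B s r).u.v j = r.u.v j := Ud.mrg_neg h

theorem Pc.ext' (h1 : ∀ a, r.p.v a = s.p.v a) (h2 : ∀ j, r.u.v j = s.u.v j) : r = s :=
  Pc.ext (Co.ext (funext h1)) (Ud.ext (funext h2))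

theorem le_res : r ≤ res A B r := by
  refine ⟨fun a => ?_, fun j f hf => ?_⟩
  · by_cases h : a ∈ A
    · rw [res_p_pos h]
    · rw [res_p_neg h]
      exact List.nil_prefix
  · by_cases h : j ∈ B
    · rw [res_u_pos h] at hf
      exact ⟨f, hf, fun _ _ _ => Iff.rfl⟩
    · rw [res_u_neg h] at hf
      exact absurd hf (by simp)

theorem res_res (hA : A ⊆ A') (hB : B ⊆ B') : res A B (res A' B' r) = res A B r := by
  refine Pc.ext' (fun a => ?_) fun j => ?_
  · by_cases h : a ∈ A
    · rw [res_p_pos h, res_p_pos h, res_p_pos (hA h)]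
    · rw [res_p_neg h, res_p_neg h]
  · by_cases h : j ∈ B
    · rw [res_u_pos h, res_u_pos h, res_u_pos (hB h)]
    · rw [res_u_neg h, res_u_neg h]

theorem res_eq_iff : res A B r = res A B s ↔ (∀ a ∈ A, r.p.v a = s.p.v a) ∧
    ∀ j ∈ B, r.u.v j = s.u.v j := by
  constructor
  · intro h
    refine ⟨fun a ha => ?_, fun j hj => ?_⟩
    · rw [← res_p_pos (B := B) (r := r) ha, h, res_p_pos ha]
    · rw [← res_u_pos (A := A) (r := r) hj, h, res_u_pos hj]
  · rintro ⟨h1, h2⟩
    refine Pc.ext' (fun a => ?_) fun j => ?_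
    · by_cases h : a ∈ A
      · rw [res_p_pos h, res_p_pos h, h1 a h]
      · rw [res_p_neg h, res_p_neg h]
    · by_cases h : j ∈ B
      · rw [res_u_pos h, res_u_pos h, h2 j h]
      · rw [res_u_neg h, res_u_neg h]

/-- names at the indices in `B` only use coordinates in `A` -/
def Cl (A : Set K) (B : Set (Ix K)) : Prop := ∀ j ∈ B, j.2.2 = false → ∀ b ≤ j.1, b ∈ A

theorem supp_of (h : Cl A B) {j : Ix K} (hj : j ∈ B) {N : Set (Co K)} (hN : NmOK j N) :
    ∀ s ∈ N, ∀ b, b ∉ A → s.v b = [] := by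
  intro s hs b hb
  refine hN s hs b ?_
  rcases hb' : j.2.2 with _ | _
  · right
    by_contra hcon
    exact hb (h j hj hb' b (not_lt.1 hcon))
  · exact Or.inl rfl

theorem meets_supp {N : Set (Co K)} (hN : ∀ s ∈ N, ∀ b, b ∉ A → s.v b = []) {q q' : Co K}
    (h : ∀ a ∈ A, q.v a <+: q'.v a) (hq : q ∈ meets N) : q' ∈ meets N := by
  intro q2 hq2
  have h1 : Co.mrg A q2 q ≤ q := by
    intro a
    by_cases ha : a ∈ A
    · rw [Co.mrg_pos ha]
      exact (h a ha).trans (hq2 a)
    · rw [Co.mrg_neg ha]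
  obtain ⟨q3, hq3, s, hs, hqs⟩ := hq _ h1
  refine ⟨Co.mrg A q3 q2, fun a => ?_, s, hs, fun a => ?_⟩
  · by_cases ha : a ∈ A
    · rw [Co.mrg_pos ha]
      have h2 := hq3 a
      rwa [Co.mrg_pos ha] at h2
    · rw [Co.mrg_neg ha]
  · by_cases ha : a ∈ A
    · rw [Co.mrg_pos ha]
      exact hqs a
    · rw [hN s hs a ha]
      exact List.nil_prefix

theorem res_mono (hcl : Cl A B) (h : r ≤ s) : res A B r ≤ res A B s := by
  refine ⟨fun a => ?_, fun j f hf => ?_⟩
  · by_cases ha : a ∈ A
    · rw [res_p_pos ha, res_p_pos ha]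
      exact h.1 a
    · rw [res_p_neg ha]
      exact List.nil_prefix
  · by_cases hj : j ∈ B
    · rw [res_u_pos hj] at hf
      obtain ⟨g, hg, h1⟩ := h.2 j f hf
      refine ⟨g, by rw [res_u_pos hj, hg], fun n q hq => ?_⟩
      have h2 := supp_of hcl hj (s.u.ok j f hf n)
      have h3 := supp_of hcl hj (r.u.ok j g hg n)
      -- move below `r.p`
      have h4 : Co.mrg A q r.p ≤ r.p := by
        intro a
        by_cases ha : a ∈ A
        · rw [Co.mrg_pos ha]
          have := hq a
          rwa [res_p_pos ha] at this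
        · rw [Co.mrg_neg ha]
      have h5 : ∀ a ∈ A, q.v a <+: (Co.mrg A q r.p).v a := fun a ha => by rw [Co.mrg_pos ha]
      have h6 : ∀ a ∈ A, (Co.mrg A q r.p).v a <+: q.v a := fun a ha => by rw [Co.mrg_pos ha]
      constructor
      · intro h7
        exact meets_supp h2 h6 ((h1 n _ h4).1 (meets_supp h3 h5 h7))
      · intro h7
        exact meets_supp h3 h6 ((h1 n _ h4).2 (meets_supp h2 h5 h7))
    · rw [res_u_neg hj] at hf
      exact absurd hf (by simp)

theorem res_supp_p (hs : res A B s = s) {a : K} (ha : a ∉ A) : s.p.v a = [] := by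
  rw [← hs]
  exact res_p_neg ha

theorem res_supp_u (hs : res A B s = s) {j : Ix K} (hj : j ∉ B) : s.u.v j = none := by
  rw [← hs]
  exact res_u_neg hj

theorem glue_p_le (hs : res A B s = s) : (glue A B s r).p ≤ s.p := by
  intro a
  by_cases ha : a ∈ A
  · rw [glue_p_pos ha]
  · rw [res_supp_p hs ha]
    exact List.nil_prefix

theorem glue_le (hs : res A B s = s) (h : s ≤ res A B r) : glue A B s r ≤ r := by
  refine ⟨fun a => ?_, fun j f hf => ?_⟩
  · by_cases ha : a ∈ A
    · rw [glue_p_pos ha]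
      have := h.1 a
      rwa [res_p_pos ha] at this
    · rw [glue_p_neg ha]
  · by_cases hj : j ∈ B
    · obtain ⟨g, hg, h1⟩ := h.2 j f (by rw [res_u_pos hj, hf])
      exact ⟨g, by rw [glue_u_pos hj, hg], fun n q hq => h1 n q (hq.trans (glue_p_le hs))⟩
    · exact ⟨f, by rw [glue_u_neg hj, hf], fun _ _ _ => Iff.rfl⟩

theorem glue_le' (hs : res A B s = s) : glue A B s r ≤ s := by
  refine ⟨glue_p_le hs, fun j f hf => ⟨f, ?_, fun _ _ _ => Iff.rfl⟩⟩
  by_cases hj : j ∈ B
  · rw [glue_u_pos hj, hf]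
  · rw [res_supp_u hs hj] at hf
    exact absurd hf (by simp)

theorem res_glue (hs : res A B s = s) : res A B (glue A B s r) = s := by
  refine Pc.ext' (fun a => ?_) fun j => ?_
  · by_cases ha : a ∈ A
    · rw [res_p_pos ha, glue_p_pos ha]
    · rw [res_p_neg ha, res_supp_p hs ha]
  · by_cases hj : j ∈ B
    · rw [res_u_pos hj, glue_u_pos hj]
    · rw [res_u_neg hj, res_supp_u hs hj]

theorem res_idem : res A B (res A B r) = res A B r := res_res subset_rfl subset_rfl

/-- if `N` only has conditions with support in `A` and `B`, then it only depends on the restriction -/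
theorem res_mem_meets (hcl : Cl A B) {N : Set (Pc K)} (hN : ∀ s ∈ N, res A B s = s)
    (h : r ∈ meets N) : res A B r ∈ meets N := by
  intro r' hr'
  have h1 : res A B r' ≤ res A B r := by
    have := res_mono hcl hr'
    rwa [res_idem] at this
  obtain ⟨r2, hr2, s, hs, h2⟩ := h _ (glue_le res_idem h1)
  have h3 : res A B r2 ≤ res A B r' := by
    have := res_mono hcl hr2
    rwa [res_glue res_idem] at this
  refine ⟨glue A B (res A B r2) r', glue_le res_idem h3, s, hs, (glue_le' res_idem).trans ?_⟩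
  have := res_mono hcl h2
  rwa [hN s hs] at this

/-- replacing the second coordinate by a literal extension -/
theorem literal (h : r ≤ s) : ∃ u : Ud K, u ≤ s.u ∧ (⟨r.p, u⟩ : Pc K) ≤ r ∧ r ≤ ⟨r.p, u⟩ := by
  classical
  let v : Ix K → Option (ℕ → Set (Co K)) := fun j => (s.u.v j).or (r.u.v j)
  have hv1 : ∀ j f, s.u.v j = some f → v j = some f := fun j f hf => by simp [v, hf]
  have hv2 : ∀ j, s.u.v j = none → v j = r.u.v j := fun j hj => by simp [v, hj]
  refine ⟨⟨v, ?_, ?_⟩, hv1, ⟨le_rfl, ?_⟩, ⟨le_rfl, ?_⟩⟩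
  · refine (s.u.cnt.union r.u.cnt).mono fun j hj => ?_
    by_cases h1 : s.u.v j = none
    · refine Or.inr ?_
      have h2 := hj
      simp only [mem_ofPred_eq] at h2 ⊢
      rwa [hv2 j h1] at h2
    · exact Or.inl h1
  · intro j f hf
    rcases h1 : s.u.v j with _ | g
    · rw [hv2 j h1] at hf
      exact r.u.ok j f hf
    · rw [hv1 j g h1] at hf
      obtain rfl := Option.some.inj hf
      exact s.u.ok j _ h1
  · intro j f hf
    rcases h1 : s.u.v j with _ | g
    · exact ⟨f, by rw [← hf]; exact hv2 j h1, fun _ _ _ => Iff.rfl⟩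
    · obtain ⟨k, hk, h2⟩ := h.2 j g h1
      rw [hf] at hk
      obtain rfl := Option.some.inj hk
      exact ⟨g, hv1 j g h1, fun n q hq => (h2 n q hq).symm⟩
  · intro j f hf
    have hf' : v j = some f := hf
    rcases h1 : s.u.v j with _ | g
    · rw [hv2 j h1] at hf'
      exact ⟨f, hf', fun _ _ _ => Iff.rfl⟩
    · rw [hv1 j g h1] at hf'
      obtain rfl := Option.some.inj hf'
      exact h.2 j _ h1

/-- lower bounds of sequences -/
theorem Ud.exists_lb (u : ℕ → Ud K) (hu : ∀ n, u (n + 1) ≤ u n) : ∃ u' : Ud K, ∀ n, u' ≤ u n := by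
  classical
  have hanti : ∀ n m, n ≤ m → u m ≤ u n := fun n m h => by
    induction m, h using Nat.le_induction with
    | base => exact le_rfl
    | succ m _ ih => exact (hu m).trans ih
  let v : Ix K → Option (ℕ → Set (Co K)) := fun j =>
    if h : ∃ n f, (u n).v j = some f then some h.choose_spec.choose else none
  have hv : ∀ n j f, (u n).v j = some f → v j = some f := by
    intro n j f hf
    have h : ∃ n f, (u n).v j = some f := ⟨n, f, hf⟩
    have h1 : v j = some h.choose_spec.choose := dif_pos h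
    have h2 := h.choose_spec.choose_spec
    rw [h1]
    rcases le_total n h.choose with hle | hle
    · have := hanti _ _ hle j f hf
      rw [h2] at this
      exact this
    · have := hanti _ _ hle j _ h2
      rw [hf] at this
      exact this.symm
  have hv' : ∀ j f, v j = some f → ∃ n, (u n).v j = some f := by
    intro j f hf
    by_cases h : ∃ n f, (u n).v j = some f
    · have h1 : v j = some h.choose_spec.choose := dif_pos h
      rw [h1] at hf
      obtain rfl := Option.some.inj hf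
      exact ⟨h.choose, h.choose_spec.choose_spec⟩
    · have h1 : v j = none := dif_neg h
      rw [h1] at hf
      exact absurd hf (by simp)
  refine ⟨⟨v, ?_, ?_⟩, fun n j f hf => hv n j f hf⟩
  · refine (countable_iUnion fun n => (u n).cnt).mono fun j hj => ?_
    obtain ⟨f, hf⟩ := Option.ne_none_iff_exists'.1 hj
    obtain ⟨n, hn⟩ := hv' j f hf
    exact mem_iUnion.2 ⟨n, by simp [hn]⟩
  · intro j f hf
    obtain ⟨n, hn⟩ := hv' j f hf
    exact (u n).ok j f hn

/-- append `b` at the coordinate `a` -/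
noncomputable def Co.app (p : Co K) (a : K) (b : List Bool) : Co K := by
  classical
  exact ⟨fun c => if c = a then p.v a ++ b else p.v c, by
    refine (p.fin.union (finite_singleton a)).subset fun c hc => ?_
    by_cases h : c = a
    · exact Or.inr h
    · simp only [mem_ofPred_eq, if_neg h] at hc
      exact Or.inl hc⟩

theorem Co.app_same (p : Co K) (a : K) (b : List Bool) : (p.app a b).v a = p.v a ++ b := by
  unfold Co.app
  exact if_pos rfl

theorem Co.app_ne (p : Co K) {a c : K} (b : List Bool) (h : c ≠ a) : (p.app a b).v c = p.v c := by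
  unfold Co.app
  exact if_neg h

theorem Co.app_le (p : Co K) (a : K) (b : List Bool) : p.app a b ≤ p := by
  intro c
  by_cases h : c = a
  · rw [h, Co.app_same]
    exact List.prefix_append _ _
  · rw [Co.app_ne _ _ h]

end

end Pool.Agent.W873.Vi
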