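import Mathlib
import Pool.Agent.W873.Vi.Cond

set_option autoImplicit false
set_option linter.unusedSectionVars false

/-!
# Fusion: countably many tasks
-/

namespace Pool.Agent.W873.Vi

open Set Cardinal Pool.Agent.Helper669.Forcing Pool.Agent.W873.Gp

theorem exists_seq {S : Type} (R : ℕ → S → S → Prop) (s0 : S) (h : ∀ n s, ∃ s', R n s s') :
    ∃ f : ℕ → S, f 0 = s0 ∧ ∀ n, R n (f n) (f (n + 1)) := by
  choose g hg using h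
  exact ⟨fun n => Nat.rec s0 g n, rfl, fun n => hg n _⟩

section

variable {K : Type} [LinearOrder K]

theorem countable_supp {A : Set K} (hA : A.Countable) :
    {t : Co K | ∀ a, a ∉ A → t.v a = []}.Countable := by
  have h1 := Set.countable_ofPred_finite_subset (s := A ×ˢ (univ : Set (List Bool)))
    (hA.prod (countable_univ))
  refine Set.MapsTo.countable_of_injOn (f := fun t : Co K =>
    {x : K × List Bool | x.2 = t.v x.1 ∧ t.v x.1 ≠ []}) ?_ ?_ h1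
  · intro t ht
    refine ⟨?_, ?_⟩
    · refine (t.fin.image fun a => (a, t.v a)).subset ?_
      rintro ⟨a, b⟩ ⟨h2, h3⟩
      simp only at h2 h3
      exact ⟨a, h3, by rw [h2]⟩
    · rintro ⟨a, b⟩ ⟨h2, h3⟩
      refine ⟨?_, trivial⟩
      by_contra hcon
      exact h3 (ht a hcon)
  · intro t _ t' _ h
    refine Co.ext (funext fun a => ?_)
    by_cases h2 : t.v a = []
    · by_contra hcon
      have h3 : (a, t'.v a) ∈ {x : K × List Bool | x.2 = t'.v x.1 ∧ t'.v x.1 ≠ []} :=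
        ⟨rfl, fun h4 => hcon (h2.trans h4.symm)⟩
      simp only at h
      rw [← h] at h3
      exact h3.2 h2
    · have h3 : (a, t.v a) ∈ {x : K × List Bool | x.2 = t.v x.1 ∧ t.v x.1 ≠ []} := ⟨rfl, h2⟩
      simp only at h
      rw [h] at h3
      exact h3.1

variable {Z : Type} {Φ : ℕ → Co K → Co K → Ud K → Z → Prop}

theorem fusion_inner (hm : ∀ k t0 t1 u z, Φ k t0 t1 u z → ∀ u' ≤ u, Φ k t0 t1 u' z) {p0 : Co K}
    {u0 : Ud K} (H : ∀ k, ∀ t ≤ p0, ∀ u ≤ u0, ∃ u' ≤ u, ∃ t0 ≤ t, ∃ t1 ≤ t, ∃ z, Φ k t0 t1 u' z)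
    (e : ℕ → Co K) {u : Ud K} (hu : u ≤ u0) :
    ∃ u' ≤ u, ∀ k j, e j ≤ p0 → ∃ t0 ≤ e j, ∃ t1 ≤ e j, ∃ z, Φ k t0 t1 u' z := by
  obtain ⟨f, hf0, hf⟩ := exists_seq (S := {w : Ud K // w ≤ u})
    (fun n s s' => s'.1 ≤ s.1 ∧ (e (Nat.unpair n).2 ≤ p0 → ∃ t0 ≤ e (Nat.unpair n).2,
      ∃ t1 ≤ e (Nat.unpair n).2, ∃ z, Φ (Nat.unpair n).1 t0 t1 s'.1 z)) ⟨u, le_rfl⟩ (by
    intro n s
    by_cases h : e (Nat.unpair n).2 ≤ p0
    · obtain ⟨u', hu', h1⟩ := H (Nat.unpair n).1 _ h s.1 (s.2.trans hu)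
      exact ⟨⟨u', hu'.trans s.2⟩, hu', fun _ => h1⟩
    · exact ⟨s, le_rfl, fun h' => absurd h' h⟩)
  obtain ⟨u', hu'⟩ := Ud.exists_lb (fun n => (f n).1) fun n => (hf n).1
  refine ⟨u', (hu' 0).trans (f 0).2, fun k j hj => ?_⟩
  have h1 := (hf (Nat.pair k j)).2
  rw [Nat.unpair_pair] at h1
  obtain ⟨t0, ht0, t1, ht1, z, hz⟩ := h1 hj
  exact ⟨t0, ht0, t1, ht1, z, hm _ _ _ _ _ hz _ (hu' _)⟩

theorem fusion (hm : ∀ k t0 t1 u z, Φ k t0 t1 u z → ∀ u' ≤ u, Φ k t0 t1 u' z) {p0 : Co K}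
    {u0 : Ud K} (H : ∀ k, ∀ t ≤ p0, ∀ u ≤ u0, ∃ u' ≤ u, ∃ t0 ≤ t, ∃ t1 ≤ t, ∃ z, Φ k t0 t1 u' z) :
    ∃ u' ≤ u0, ∃ A : Set K, A.Countable ∧ (∀ a, a ∉ A → p0.v a = []) ∧ ∃ C : Set Z, C.Countable ∧
      ∀ k, ∀ t ≤ p0, (∀ a, a ∉ A → t.v a = []) → ∃ t0 ≤ t, ∃ t1 ≤ t, (∀ a, a ∉ A → t0.v a = []) ∧
        (∀ a, a ∉ A → t1.v a = []) ∧ ∃ z ∈ C, Φ k t0 t1 u' z := by
  obtain ⟨f, hf0, hf⟩ := exists_seq (S := {w : Ud K × Set K × Set Z // w.1 ≤ u0 ∧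
      w.2.1.Countable ∧ w.2.2.Countable ∧ ∀ a, a ∉ w.2.1 → p0.v a = []})
    (fun _ s s' => s'.1.1 ≤ s.1.1 ∧ s.1.2.1 ⊆ s'.1.2.1 ∧ s.1.2.2 ⊆ s'.1.2.2 ∧
      ∀ k, ∀ t ≤ p0, (∀ a, a ∉ s.1.2.1 → t.v a = []) → ∃ t0 ≤ t, ∃ t1 ≤ t,
        (∀ a, a ∉ s'.1.2.1 → t0.v a = []) ∧ (∀ a, a ∉ s'.1.2.1 → t1.v a = []) ∧
          ∃ z ∈ s'.1.2.2, Φ k t0 t1 s'.1.1 z)
    ⟨(u0, {a | p0.v a ≠ []}, ∅), le_rfl, p0.fin.countable, countable_empty, fun a ha => by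
      simpa using ha⟩ (by
    rintro n ⟨⟨u, A, C⟩, hu, hA, hC, hp⟩
    simp only at hu hA hC hp
    have h1 := countable_supp hA
    have hne : {t : Co K | ∀ a, a ∉ A → t.v a = []}.Nonempty := ⟨Co.one, fun _ _ => rfl⟩
    obtain ⟨e, he⟩ := h1.exists_eq_range hne
    obtain ⟨u', hu', h2⟩ := fusion_inner hm H e hu
    have h3 : ∀ k j, ∃ t0 t1 : Co K, ∃ z : Z, e j ≤ p0 → t0 ≤ e j ∧ t1 ≤ e j ∧ Φ k t0 t1 u' z := by
      intro k j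
      by_cases h : e j ≤ p0
      · obtain ⟨t0, ht0, t1, ht1, z, hz⟩ := h2 k j h
        exact ⟨t0, t1, z, fun _ => ⟨ht0, ht1, hz⟩⟩
      · obtain ⟨_, _, _, _, _, _, z, _⟩ := H 0 p0 le_rfl u0 le_rfl
        exact ⟨e j, e j, z, fun h' => absurd h' h⟩
    choose t0 t1 z h3 using h3
    refine ⟨⟨(u', A ∪ ⋃ x : ℕ × ℕ, ({a | (t0 x.1 x.2).v a ≠ []} ∪ {a | (t1 x.1 x.2).v a ≠ []}),
      C ∪ range fun x : ℕ × ℕ => z x.1 x.2), hu'.trans hu, ?_, ?_, ?_⟩, hu', subset_union_left,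
      subset_union_left, ?_⟩
    · exact hA.union (countable_iUnion fun x => ((t0 x.1 x.2).fin.union (t1 x.1 x.2).fin).countable)
    · exact hC.union (countable_range _)
    · intro a ha
      exact hp a fun h => ha (Or.inl h)
    · intro k t ht hts
      have h4 : t ∈ {t : Co K | ∀ a, a ∉ A → t.v a = []} := hts
      rw [he] at h4
      obtain ⟨j, rfl⟩ := h4
      obtain ⟨h5, h6, h7⟩ := h3 k j ht
      refine ⟨t0 k j, h5, t1 k j, h6, fun a ha => ?_, fun a ha => ?_, z k j,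
        Or.inr ⟨(k, j), rfl⟩, h7⟩
      · by_contra hcon
        exact ha (Or.inr (mem_iUnion.2 ⟨(k, j), Or.inl hcon⟩))
      · by_contra hcon
        exact ha (Or.inr (mem_iUnion.2 ⟨(k, j), Or.inr hcon⟩)))
  obtain ⟨u', hu'⟩ := Ud.exists_lb (fun n => (f n).1.1) fun n => (hf n).1
  have hmono : ∀ n m, n ≤ m → (f n).1.2.1 ⊆ (f m).1.2.1 := fun n m h => by
    induction m, h using Nat.le_induction with
    | base => exact subset_rfl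
    | succ m _ ih => exact ih.trans (hf m).2.1
  refine ⟨u', (hu' 0).trans (f 0).2.1, ⋃ n, (f n).1.2.1, countable_iUnion fun n => (f n).2.2.1,
    fun a ha => (f 0).2.2.2.2 a fun h => ha (mem_iUnion.2 ⟨0, h⟩), ⋃ n, (f n).1.2.2,
    countable_iUnion fun n => (f n).2.2.2.1, fun k t ht hts => ?_⟩
  -- the support of `t` is contained in a stage
  have h1 : ∃ n, ∀ a, a ∉ (f n).1.2.1 → t.v a = [] := by
    have h2 : ∀ a : {a | t.v a ≠ []}, ∃ n, a.1 ∈ (f n).1.2.1 := by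
      rintro ⟨a, ha⟩
      by_contra hcon
      push Not at hcon
      exact ha (hts a fun h => by
        obtain ⟨n, hn⟩ := mem_iUnion.1 h
        exact hcon n hn)
    choose g hg using h2
    have : Finite {a | t.v a ≠ []} := t.fin
    obtain ⟨N, hN⟩ := (finite_range g).bddAbove
    refine ⟨N, fun a ha => ?_⟩
    by_contra hcon
    exact ha (hmono _ _ (hN ⟨⟨a, hcon⟩, rfl⟩) (hg ⟨a, hcon⟩))
  obtain ⟨n, hn⟩ := h1
  obtain ⟨t0, ht0, t1, ht1, h2, h3, z, hz, h4⟩ := (hf n).2.2.2 k t ht hn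
  exact ⟨t0, ht0, t1, ht1, fun a ha => h2 a fun h => ha (mem_iUnion.2 ⟨_, h⟩),
    fun a ha => h3 a fun h => ha (mem_iUnion.2 ⟨_, h⟩), z, mem_iUnion.2 ⟨_, hz⟩,
    hm _ _ _ _ _ h4 _ (hu' _)⟩

end

end Pool.Agent.W873.Vi
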