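import Mathlib
import Pool.Agent.W873.Vi.Fus

set_option autoImplicit false
set_option linter.unusedSectionVars false

/-!
# Sets with countable approximations in the submodel only depend on the Cohen subsets of `ω₁`
-/

namespace Pool.Agent.W873.Vi

open Set Cardinal Pool.Agent.Helper669.Forcing Pool.Agent.W873.Gp

section

variable {K : Type} [LinearOrder K]

/-- the indices below `m` -/
def Bm (m : K) : Set (Ix K) := {j | j.1 < m}

/-- the indices below `m` and those of the Cohen subsets of `ω₁` -/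
def Bb (m : K) : Set (Ix K) := {j | j.1 < m ∨ j.2.2 = true}

theorem cl_m (m : K) : Cl (Iio m) (Bm m) := fun _ hj _ _ hb => lt_of_le_of_lt hb hj

theorem cl_b (m : K) : Cl (Iio m) (Bb m) := by
  rintro j (hj | hj) h b hb
  · exact lt_of_le_of_lt hb hj
  · rw [h] at hj
    exact absurd hj (by simp)

/-- the part of `r` below `m` -/
noncomputable def rm (m : K) (r : Pc K) : Pc K := res (Iio m) (Bm m) r

/-- the part of `r` in `Bb m` -/
noncomputable def rb (m : K) (r : Pc K) : Pc K := res (Iio m) (Bb m) r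

theorem le_rm {m : K} {r : Pc K} : r ≤ rm m r := le_res
theorem le_rb {m : K} {r : Pc K} : r ≤ rb m r := le_res
theorem rm_mono {m : K} {r s : Pc K} (h : r ≤ s) : rm m r ≤ rm m s := res_mono (cl_m m) h
theorem rb_mono {m : K} {r s : Pc K} (h : r ≤ s) : rb m r ≤ rb m s := res_mono (cl_b m) h
theorem rm_idem {m : K} {r : Pc K} : rm m (rm m r) = rm m r := res_idem
theorem rb_idem {m : K} {r : Pc K} : rb m (rb m r) = rb m r := res_idem
theorem rm_rb {m : K} {r : Pc K} : rm m (rb m r) = rm m r := res_res subset_rfl fun _ h => Or.inl h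

/-- gluing along `Bb m` -/
noncomputable def gb (m : K) (s r : Pc K) : Pc K := glue (Iio m) (Bb m) s r

theorem gb_le {m : K} {s r : Pc K} (hs : rb m s = s) (h : s ≤ rb m r) : gb m s r ≤ r := glue_le hs h
theorem gb_le' {m : K} {s r : Pc K} (hs : rb m s = s) : gb m s r ≤ s := glue_le' hs
theorem rb_gb {m : K} {s r : Pc K} (hs : rb m s = s) : rb m (gb m s r) = s := res_glue hs
theorem gb_p_lt {m : K} {s r : Pc K} {a : K} (ha : a < m) :
    (gb m (rb m s) r).p.v a = s.p.v a := by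
  have h1 : (gb m (rb m s) r).p.v a = (rb m s).p.v a := glue_p_pos ha
  rw [h1]
  exact res_p_pos ha
theorem gb_p_m {m : K} {s r : Pc K} : (gb m s r).p.v m = r.p.v m := glue_p_neg (lt_irrefl m)

/-- the name given by `r` at the index `j` -/
def nm (r : Pc K) (j : Ix K) (n : ℕ) : Set (Co K) := ((r.u.v j).getD fun _ => ∅) n

/-- mixing of names at the coordinate `m` -/
def mixn (m : K) (ra rc : Pc K) (j : Ix K) (n : ℕ) : Set (Co K) :=
  {s | (∀ b, j.1 < b → s.v b = []) ∧ ((ra.p.v m <+: s.v m ∧ s ∈ meets (nm ra j n)) ∨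
    (rc.p.v m <+: s.v m ∧ s ∈ meets (nm rc j n)))}

theorem mixn_comm {m : K} {ra rc : Pc K} {j : Ix K} {n : ℕ} :
    mixn m ra rc j n = mixn m rc ra j n := by
  ext s
  exact and_congr Iff.rfl or_comm

theorem meets_mixn {m : K} {ra rc : Pc K} {j : Ix K} {n : ℕ} {f : ℕ → Set (Co K)}
    (hj : m ≤ j.1) (hf : ra.u.v j = some f)
    (hinc : ∀ l : List Bool, ¬ (ra.p.v m <+: l ∧ rc.p.v m <+: l)) {q : Co K} (hq : q ≤ ra.p) :
    q ∈ meets (mixn m ra rc j n) ↔ q ∈ meets (f n) := by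
  have hn : nm ra j n = f n := by simp [nm, hf]
  constructor
  · intro h
    refine meets_of_dense fun q1 hq1 => ?_
    obtain ⟨q2, hq2, s, ⟨_, hs⟩, hqs⟩ := h q1 hq1
    rcases hs with ⟨_, hs⟩ | ⟨hs, _⟩
    · rw [hn] at hs
      exact ⟨q2, hq2, down_meets _ _ hs _ hqs⟩
    · exact absurd ⟨(hq m).trans ((hq1 m).trans (hq2 m)), hs.trans (hqs m)⟩ (hinc _)
  · intro h
    refine meets_of_dense fun q1 hq1 => ⟨q1, le_rfl, ?_⟩
    have h1 := down_meets _ _ h _ hq1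
    have h2 : q1 ≤ Co.mrg (Iic j.1) q1 Co.one := by
      intro a
      by_cases ha : a ∈ Iic j.1
      · rw [Co.mrg_pos ha]
      · rw [Co.mrg_neg ha]
        exact List.nil_prefix
    refine meets_of_le ⟨fun b hb => ?_, Or.inl ⟨?_, ?_⟩⟩ h2
    · rw [Co.mrg_neg (by simpa using hb)]
      rfl
    · rw [Co.mrg_pos (show m ∈ Iic j.1 from hj)]
      exact (hq m).trans (hq1 m)
    · rw [hn]
      refine meets_supp (A := Iic j.1) (q := q1) (fun s hs b hb => ?_) (fun a ha => ?_) h1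
      · exact ra.u.ok j f hf n s hs b (Or.inr (by simpa using hb))
      · rw [Co.mrg_pos ha]

theorem mix {m : K} {t r1 r2 : Pc K} (h1 : r1 ≤ t) (h2 : r2 ≤ t) (hB : rb m r1 = rb m r2)
    (hinc : ∀ l : List Bool, ¬ (r1.p.v m <+: l ∧ r2.p.v m <+: l)) :
    ∃ u' ≤ t.u, (⟨r1.p, u'⟩ : Pc K) ≤ r1 ∧ (⟨r2.p, u'⟩ : Pc K) ≤ r2 := by
  classical
  obtain ⟨_, hB2⟩ := res_eq_iff.1 hB
  let v : Ix K → Option (ℕ → Set (Co K)) := fun j =>
    if t.u.v j ≠ none then t.u.v j else if j ∈ Bb m then r1.u.v j else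
      if r1.u.v j = none ∧ r2.u.v j = none then none else some (mixn m r1 r2 j)
  have hv1 : ∀ j f, t.u.v j = some f → v j = some f := by
    intro j f hf
    simp only [v]
    rw [if_pos (by simp [hf]), hf]
  have hv2 : ∀ j, t.u.v j = none → j ∈ Bb m → v j = r1.u.v j := by
    intro j hj hjb
    simp only [v]
    rw [if_neg (by simp [hj]), if_pos hjb]
  have hv3 : ∀ j, t.u.v j = none → j ∉ Bb m → ¬ (r1.u.v j = none ∧ r2.u.v j = none) →
      v j = some (mixn m r1 r2 j) := by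
    intro j hj hjb hn
    simp only [v]
    rw [if_neg (by simp [hj]), if_neg hjb, if_neg hn]
  have hv4 : ∀ j, r1.u.v j = none → r2.u.v j = none → v j = none := by
    intro j h3 h4
    have h5 : t.u.v j = none := by
      by_contra hcon
      obtain ⟨f, hf⟩ := Option.ne_none_iff_exists'.1 hcon
      obtain ⟨g, hg, _⟩ := h1.2 j f hf
      rw [h3] at hg
      exact absurd hg (by simp)
    by_cases hjb : j ∈ Bb m
    · rw [hv2 j h5 hjb, h3]
    · simp only [v]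
      rw [if_neg (by simp [h5]), if_neg hjb, if_pos ⟨h3, h4⟩]
  have hbb : ∀ j, j ∉ Bb m → m ≤ j.1 ∧ j.2.2 = false := by
    intro j hj
    refine ⟨not_lt.1 fun h => hj (Or.inl h), ?_⟩
    rcases h : j.2.2 with _ | _
    · rfl
    · exact absurd (Or.inr h) hj
  refine ⟨⟨v, ?_, ?_⟩, hv1, ⟨le_rfl, ?_⟩, ⟨le_rfl, ?_⟩⟩
  · refine (r1.u.cnt.union r2.u.cnt).mono fun j hj => ?_
    by_contra hcon
    simp only [mem_union, mem_ofPred_eq, not_or, not_not] at hcon
    exact hj (hv4 j hcon.1 hcon.2)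
  · intro j f hf n
    rcases h3 : t.u.v j with _ | g
    · by_cases hjb : j ∈ Bb m
      · rw [hv2 j h3 hjb] at hf
        exact r1.u.ok j f hf n
      · by_cases hn : r1.u.v j = none ∧ r2.u.v j = none
        · rw [hv4 j hn.1 hn.2] at hf
          exact absurd hf (by simp)
        · rw [hv3 j h3 hjb hn] at hf
          obtain rfl := Option.some.inj hf
          intro s hs b hb
          rcases hb with hb | hb
          · rw [(hbb j hjb).2] at hb
            exact absurd hb (by simp)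
          · exact hs.1 b hb
    · rw [hv1 j g h3] at hf
      obtain rfl := Option.some.inj hf
      exact t.u.ok j _ h3 n
  · intro j f hf
    change ∃ g, v j = some g ∧ _
    rcases h3 : t.u.v j with _ | g
    · by_cases hjb : j ∈ Bb m
      · exact ⟨f, by rw [hv2 j h3 hjb, hf], fun _ _ _ => Iff.rfl⟩
      · refine ⟨_, hv3 j h3 hjb (by simp [hf]), fun n q hq => ?_⟩
        exact meets_mixn (hbb j hjb).1 hf hinc hq
    · obtain ⟨k, hk, h4⟩ := h1.2 j g h3
      rw [hf] at hk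
      obtain rfl := Option.some.inj hk
      exact ⟨g, hv1 j g h3, fun n q hq => (h4 n q hq).symm⟩
  · intro j f hf
    change ∃ g, v j = some g ∧ _
    rcases h3 : t.u.v j with _ | g
    · by_cases hjb : j ∈ Bb m
      · exact ⟨f, by rw [hv2 j h3 hjb, hB2 j hjb, hf], fun _ _ _ => Iff.rfl⟩
      · refine ⟨_, hv3 j h3 hjb (by simp [hf]), fun n q hq => ?_⟩
        rw [mixn_comm]
        exact meets_mixn (hbb j hjb).1 hf (fun l hl => hinc l hl.symm) hq
    · obtain ⟨k, hk, h4⟩ := h2.2 j g h3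
      rw [hf] at hk
      obtain rfl := Option.some.inj hk
      exact ⟨g, hv1 j g h3, fun n q hq => (h4 n q hq).symm⟩

theorem decide_meets (N : Set (Pc K)) (p : Pc K) :
    ∃ q ≤ p, q ∈ meets N ∨ q ∈ fnot (meets N) := by
  by_cases h : ∃ q ≤ p, q ∈ meets N
  · obtain ⟨q, hq, h⟩ := h
    exact ⟨q, hq, Or.inl h⟩
  · exact ⟨p, le_rfl, Or.inr fun q hq hn => h ⟨q, hq, hn⟩⟩

theorem stepA {L : Type} {d : L → Set (Pc K)} {m : K} {X : Set L} {Nn : Set (L → Set (Pc K))}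
    (h1 : ∀ τ ∈ Nn, ∀ l ∈ X, ∀ r, r ∈ meets (τ l) → rm m r ∈ meets (τ l)) {r0 : Pc K}
    (h2 : ∀ S ⊆ X, S.Countable → ∀ r ≤ r0, ∃ r' ≤ r, ∃ τ ∈ Nn, r' ∈ Gp.EqOn d τ S) :
    ∃ r ≤ r0, ∀ l ∈ X, ∀ s0 ≤ r, ∀ s1 ≤ r, rb m s0 = rb m s1 → s0 ∈ meets (d l) →
      s1 ∉ fnot (meets (d l)) := by
  by_contra hcon
  push Not at hcon
  have hsplit : ∀ _ : ℕ, ∀ t ≤ r0.p, ∀ u ≤ r0.u, ∃ u' ≤ u, ∃ t0 ≤ t, ∃ t1 ≤ t, ∃ l : L,
      (∀ a < m, t0.v a = t1.v a) ∧ l ∈ X ∧ (⟨t0, u'⟩ : Pc K) ∈ meets (d l) ∧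
        (⟨t1, u'⟩ : Pc K) ∈ fnot (meets (d l)) := by
    intro _ t ht u hu
    let base : Pc K := ⟨t, u⟩
    have hbase : base ≤ r0 := Pc.mk_le ht hu
    let rf : Pc K := ⟨t.app m [false], u⟩
    let rt : Pc K := ⟨t.app m [true], u⟩
    have hrf : rf ≤ base := Pc.mk_le (t.app_le _ _) le_rfl
    have hrt : rt ≤ base := Pc.mk_le (t.app_le _ _) le_rfl
    have hrr : rb m rf = rb m rt := by
      refine res_eq_iff.2 ⟨fun a ha => ?_, fun _ _ => rfl⟩
      have hne : a ≠ m := ne_of_lt ha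
      change (t.app m [false]).v a = (t.app m [true]).v a
      rw [Co.app_ne _ _ hne, Co.app_ne _ _ hne]
    obtain ⟨l, hl, s0, hs0, s1, hs1, hss, hy, hn⟩ := hcon rf (hrf.trans hbase)
    have hg := gb_le (m := m) (s := rb m s0) (r := rt) rb_idem (by
      rw [← hrr]
      exact rb_mono hs0)
    obtain ⟨r2, hr2, hdec⟩ := decide_meets (d l) (gb m (rb m s0) rt)
    have hb2 : rb m r2 ≤ rb m s0 := by
      have := rb_mono (m := m) hr2
      rwa [rb_gb rb_idem] at this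
    have hpt : t.v m ++ [true] <+: r2.p.v m := by
      have h3 := (hr2.trans hg).1 m
      change (t.app m [true]).v m <+: _ at h3
      rwa [Co.app_same] at h3
    have hpf : ∀ s, s ≤ rf → t.v m ++ [false] <+: s.p.v m := by
      intro s hs
      have h3 := hs.1 m
      change (t.app m [false]).v m <+: _ at h3
      rwa [Co.app_same] at h3
    have hinc : ∀ l : List Bool, t.v m ++ [true] <+: l → t.v m ++ [false] <+: l → False := by
      intro l h3 h4
      have h5 := List.prefix_of_prefix_length_le h3 h4 (by simp)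
      rw [List.prefix_append_right_inj] at h5
      simp at h5
    rcases hdec with hdec | hdec
    · have hs1' : gb m (rb m r2) s1 ≤ s1 := gb_le rb_idem (by rw [← hss]; exact hb2)
      obtain ⟨u', hu', h3, h4⟩ := mix (t := base) (r1 := r2) (r2 := gb m (rb m r2) s1)
        (hr2.trans (hg.trans hrt)) (hs1'.trans (hs1.trans hrf)) (rb_gb rb_idem).symm
        (fun l hl => hinc l (hpt.trans hl.1) ((hpf _ (hs1'.trans hs1)).trans hl.2))
      refine ⟨u', hu', r2.p, (hr2.trans (hg.trans hrt)).1, _, (hs1'.trans (hs1.trans hrf)).1, l,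
        ?_, hl, down_meets _ _ hdec _ h3, down_fnot _ _ hn _ (h4.trans hs1')⟩
      intro a ha
      exact (gb_p_lt ha).symm
    · have hs0' : gb m (rb m r2) s0 ≤ s0 := gb_le rb_idem hb2
      obtain ⟨u', hu', h3, h4⟩ := mix (t := base) (r1 := gb m (rb m r2) s0) (r2 := r2)
        (hs0'.trans (hs0.trans hrf)) (hr2.trans (hg.trans hrt)) (rb_gb rb_idem)
        (fun l hl => hinc l (hpt.trans hl.2) ((hpf _ (hs0'.trans hs0)).trans hl.1))
      refine ⟨u', hu', _, (hs0'.trans (hs0.trans hrf)).1, r2.p, (hr2.trans (hg.trans hrt)).1, l,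
        ?_, hl, down_meets _ _ hy _ (h3.trans hs0'), down_fnot _ _ hdec _ h4⟩
      intro a ha
      exact gb_p_lt ha
  obtain ⟨u', hu', A, hA, hp0, C, hC, hfus⟩ := fusion (Z := L)
    (Φ := fun _ t0 t1 u l => (∀ a < m, t0.v a = t1.v a) ∧ l ∈ X ∧
      (⟨t0, u⟩ : Pc K) ∈ meets (d l) ∧ (⟨t1, u⟩ : Pc K) ∈ fnot (meets (d l)))
    (fun k t0 t1 u z h w hw => ⟨h.1, h.2.1, down_meets _ _ h.2.2.1 _ (Pc.mk_le le_rfl hw),
      down_fnot _ _ h.2.2.2 _ (Pc.mk_le le_rfl hw)⟩) hsplit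
  obtain ⟨r', hr', τ, hτ, heq⟩ := h2 (C ∩ X) inter_subset_right (hC.mono inter_subset_left)
    ⟨r0.p, u'⟩ (Pc.mk_le le_rfl hu')
  have ht : Co.mrg A r'.p Co.one ≤ r0.p := by
    intro a
    by_cases ha : a ∈ A
    · rw [Co.mrg_pos ha]
      exact hr'.1 a
    · rw [hp0 a ha]
      exact List.nil_prefix
  obtain ⟨t0, ht0, t1, ht1, hs0, hs1, l, hlC, hag, hlX, hy, hn⟩ := hfus 0 _ ht
    fun a ha => by rw [Co.mrg_neg ha]; rfl
  -- merging
  have hmrg : ∀ t : Co K, t ≤ Co.mrg A r'.p Co.one → (∀ a, a ∉ A → t.v a = []) →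
      (⟨Co.mrg A t r'.p, r'.u⟩ : Pc K) ≤ r' ∧ (⟨Co.mrg A t r'.p, r'.u⟩ : Pc K) ≤ ⟨t, u'⟩ := by
    intro t ht hts
    have h3 : Co.mrg A t r'.p ≤ r'.p := by
      intro a
      by_cases ha : a ∈ A
      · rw [Co.mrg_pos ha]
        have := ht a
        rwa [Co.mrg_pos ha] at this
      · rw [Co.mrg_neg ha]
    have h4 : Co.mrg A t r'.p ≤ t := by
      intro a
      by_cases ha : a ∈ A
      · rw [Co.mrg_pos ha]
      · rw [hts a ha]
        exact List.nil_prefix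
    refine ⟨⟨h3, fun j f hf => ⟨f, hf, fun _ _ _ => Iff.rfl⟩⟩, ⟨h4, fun j f hf => ?_⟩⟩
    obtain ⟨g, hg, h5⟩ := hr'.2 j f hf
    exact ⟨g, hg, fun n q hq => h5 n q (hq.trans h3)⟩
  obtain ⟨h3, h4⟩ := hmrg t0 ht0 hs0
  obtain ⟨h5, h6⟩ := hmrg t1 ht1 hs1
  have h7 : (⟨Co.mrg A t0 r'.p, r'.u⟩ : Pc K) ∈ meets (τ l) :=
    (down_EqOn _ heq _ h3 l ⟨hlC, hlX⟩ _ le_rfl).1 (down_meets _ _ hy _ h4)
  have h8 : rm m ⟨Co.mrg A t0 r'.p, r'.u⟩ = rm m ⟨Co.mrg A t1 r'.p, r'.u⟩ := by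
    refine res_eq_iff.2 ⟨fun a ha => ?_, fun _ _ => rfl⟩
    change (Co.mrg A t0 r'.p).v a = (Co.mrg A t1 r'.p).v a
    by_cases haA : a ∈ A
    · rw [Co.mrg_pos haA, Co.mrg_pos haA, hag a ha]
    · rw [Co.mrg_neg haA, Co.mrg_neg haA]
  have h9 := h1 τ hτ l hlX _ h7
  rw [h8] at h9
  have h10 := down_meets _ _ h9 _ (le_rm (m := m) (r := ⟨Co.mrg A t1 r'.p, r'.u⟩))
  exact down_fnot _ _ hn _ h6 _ le_rfl ((down_EqOn _ heq _ h5 l ⟨hlC, hlX⟩ _ le_rfl).2 h10)

end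

end Pool.Agent.W873.Vi
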