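import Mathlib
import Pool.Agent.W873.Vi.StepA

set_option autoImplicit false
set_option linter.unusedSectionVars false

/-!
# Approximated sets are guessed
-/

namespace Pool.Agent.W873.Vi

open Set Cardinal Pool.Agent.Helper669.Forcing Pool.Agent.W873.Gp

section

variable {K : Type} [LinearOrder K]

/-- the union of two conditions -/
noncomputable def join (r s : Pc K) : Pc K := by
  classical
  exact ⟨⟨fun a => if r.p.v a = [] then s.p.v a else r.p.v a, by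
    refine (r.p.fin.union s.p.fin).subset fun a ha => ?_
    by_cases h : r.p.v a = []
    · simp only [mem_ofPred_eq, if_pos h] at ha
      exact Or.inr ha
    · exact Or.inl h⟩,
    ⟨fun j => if r.u.v j = none then s.u.v j else r.u.v j, by
    refine (r.u.cnt.union s.u.cnt).mono fun a ha => ?_
    by_cases h : r.u.v a = none
    · simp only [mem_ofPred_eq, if_pos h] at ha
      exact Or.inr ha
    · exact Or.inl h, fun j f hf => by
    by_cases h : r.u.v j = none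
    · rw [if_pos h] at hf
      exact s.u.ok j f hf
    · rw [if_neg h] at hf
      exact r.u.ok j f hf⟩⟩

theorem join_p {r s : Pc K} {a : K} :
    ((join r s).p.v a = s.p.v a ∧ r.p.v a = []) ∨ ((join r s).p.v a = r.p.v a) := by
  classical
  by_cases h : r.p.v a = []
  · exact Or.inl ⟨if_pos h, h⟩
  · exact Or.inr (if_neg h)

theorem join_u {r s : Pc K} {j : Ix K} :
    ((join r s).u.v j = s.u.v j ∧ r.u.v j = none) ∨ ((join r s).u.v j = r.u.v j) := by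
  classical
  by_cases h : r.u.v j = none
  · exact Or.inl ⟨if_pos h, h⟩
  · exact Or.inr (if_neg h)

/-- the conditions agree where both are defined -/
def Agr (r s : Pc K) : Prop := (∀ a, r.p.v a = [] ∨ s.p.v a = [] ∨ r.p.v a = s.p.v a) ∧
  ∀ j, r.u.v j = none ∨ s.u.v j = none ∨ r.u.v j = s.u.v j

theorem join_le_left {r s : Pc K} : join r s ≤ r := by
  refine ⟨fun a => ?_, fun j f hf => ⟨f, ?_, fun _ _ _ => Iff.rfl⟩⟩
  · rcases join_p (r := r) (s := s) (a := a) with ⟨_, h⟩ | h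
    · rw [h]
      exact List.nil_prefix
    · rw [h]
  · rcases join_u (r := r) (s := s) (j := j) with ⟨_, h⟩ | h
    · rw [h] at hf
      exact absurd hf (by simp)
    · rw [h, hf]

theorem join_le_right {r s : Pc K} (h : Agr r s) : join r s ≤ s := by
  refine ⟨fun a => ?_, fun j f hf => ⟨f, ?_, fun _ _ _ => Iff.rfl⟩⟩
  · rcases join_p (r := r) (s := s) (a := a) with ⟨h1, _⟩ | h1
    · rw [h1]
    · rcases h.1 a with h2 | h2 | h2
      · have : (join r s).p.v a = s.p.v a := if_pos h2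
        rw [this]
      · rw [h2]
        exact List.nil_prefix
      · rw [h1, h2]
  · rcases join_u (r := r) (s := s) (j := j) with ⟨h1, _⟩ | h1
    · rw [h1, hf]
    · rcases h.2 j with h2 | h2 | h2
      · have : (join r s).u.v j = s.u.v j := if_pos h2
        rw [this, hf]
      · rw [h2] at hf
        exact absurd hf (by simp)
      · rw [h1, h2, hf]

theorem res_join {A : Set K} {B : Set (Ix K)} {r s r' s' : Pc K} (h : res A B r = res A B r')
    (h' : res A B s = res A B s') : res A B (join r s) = res A B (join r' s') := by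
  obtain ⟨h1, h2⟩ := res_eq_iff.1 h
  obtain ⟨h3, h4⟩ := res_eq_iff.1 h'
  refine res_eq_iff.2 ⟨fun a ha => ?_, fun j hj => ?_⟩
  · change (if r.p.v a = [] then s.p.v a else r.p.v a) =
      if r'.p.v a = [] then s'.p.v a else r'.p.v a
    rw [h1 a ha, h3 a ha]
  · change (if r.u.v j = none then s.u.v j else r.u.v j) =
      if r'.u.v j = none then s'.u.v j else r'.u.v j
    rw [h2 j hj, h4 j hj]

theorem res_join_self {A : Set K} {B : Set (Ix K)} {r s : Pc K} (h : res A B r = r)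
    (h' : res A B s = s) : res A B (join r s) = join r s := by
  refine Pc.ext' (fun a => ?_) fun j => ?_
  · by_cases ha : a ∈ A
    · exact res_p_pos ha
    · rw [res_p_neg ha]
      rcases join_p (r := r) (s := s) (a := a) with ⟨h1, _⟩ | h1
      · rw [h1, res_supp_p h' ha]
      · rw [h1, res_supp_p h ha]
  · by_cases hj : j ∈ B
    · exact res_u_pos hj
    · rw [res_u_neg hj]
      rcases join_u (r := r) (s := s) (j := j) with ⟨h1, _⟩ | h1
      · rw [h1, res_supp_u h' hj]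
      · rw [h1, res_supp_u h hj]

/-- the names at the coordinate `a` -/
abbrev NmT (K : Type) [LinearOrder K] (a : K) : Type :=
  {N : Set (Co K) // ∀ s ∈ N, ∀ b, a < b → s.v b = []}

theorem lt_vals {μ : Cardinal.{0}} (hμ : μ.IsInaccessible) {j : Ix K}
    (h : j.2.2 = true ∨ #(NmT K j.1) < μ) :
    #{o : Option (ℕ → Set (Co K)) | ∀ g, o = some g → ∀ n, NmOK j (g n)} < μ := by
  have h1 : #{N : Set (Co K) // NmOK j N} < μ := by
    rcases h with h | h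
    · refine lt_of_le_of_lt ?_ (lt_set hμ (A := Unit) ?_)
      · refine mk_le_of_injective (f := fun N => {_x : Unit | Co.one ∈ N.1}) ?_
        intro N N' hNN
        have h2 : ∀ N : {N : Set (Co K) // NmOK j N}, ∀ s ∈ N.1, s = Co.one := fun N s hs =>
          Co.ext (funext fun b => N.2 s hs b (Or.inl h))
        have h3 : Co.one ∈ N.1 ↔ Co.one ∈ N'.1 := by
          have h4 := congrArg (fun S : Set Unit => () ∈ S) hNN
          simpa using h4
        refine Subtype.ext (Set.ext fun s => ⟨fun hs => ?_, fun hs => ?_⟩)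
        · obtain rfl := h2 N s hs
          exact h3.1 hs
        · obtain rfl := h2 N' s hs
          exact h3.2 hs
      · exact (mk_le_aleph0 (α := Unit)).trans_lt hμ.aleph0_lt
    · refine lt_of_le_of_lt ?_ h
      exact mk_le_of_injective (f := fun N : {N : Set (Co K) // NmOK j N} =>
        (⟨N.1, fun s hs b hb => N.2 s hs b (Or.inr hb)⟩ : NmT K j.1)) fun N N' hNN =>
          Subtype.ext (congrArg (fun x : NmT K j.1 => x.1) hNN)
  have h2 : #(Option (ℕ → {N : Set (Co K) // NmOK j N})) < μ := by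
    rw [mk_option]
    exact add_lt_of_lt hμ.aleph0_lt.le (lt_fun hμ (lt_nat hμ) h1) (one_lt_aleph0.trans hμ.aleph0_lt)
  refine lt_of_le_of_lt ?_ h2
  refine mk_le_of_injective (f := fun o : {o : Option (ℕ → Set (Co K)) | ∀ g, o = some g →
    ∀ n, NmOK j (g n)} => match o with
      | ⟨none, _⟩ => none
      | ⟨some g, hg⟩ => some fun n => (⟨g n, hg g rfl n⟩ : {N : Set (Co K) // NmOK j N})) ?_
  rintro ⟨_ | g, hg⟩ ⟨_ | g', hg'⟩ hh
  · rfl
  · simp at hh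
  · simp at hh
  · simp only [Option.some.injEq] at hh
    have h3 : g = g' := funext fun n => congrArg Subtype.val (congrFun hh n)
    subst h3
    rfl

/-- two of `μ` pairs of conditions are compatible in `Bb m` -/
theorem cc_pairs {μ : Cardinal.{0}} (hμ : μ.IsInaccessible) {m : K}
    (hcnt : ∀ a < m, #(NmT K a) < μ) (c0 c1 : Ik μ → Pc K) (h0 : ∀ ξ, rb m (c0 ξ) = c0 ξ)
    (h1 : ∀ ξ, rb m (c1 ξ) = c1 ξ) :
    ∃ η ξ, η < ξ ∧ Agr (c0 η) (c0 ξ) ∧ Agr (c1 η) (c1 ξ) := by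
  classical
  let f : Ik μ → K ⊕ Ix K → (List Bool × List Bool) ×
      (Option (ℕ → Set (Co K)) × Option (ℕ → Set (Co K))) := fun ξ i => match i with
    | Sum.inl a => (((c0 ξ).p.v a, (c1 ξ).p.v a), (none, none))
    | Sum.inr j => (([], []), ((c0 ξ).u.v j, (c1 ξ).u.v j))
  obtain ⟨η, ξ, hlt, h⟩ := delta hμ (([], []), (none, none)) f (fun ξ => by
    have h2 := (((c0 ξ).p.fin.union (c1 ξ).p.fin).countable.image Sum.inl).union
      (((c0 ξ).u.cnt.union (c1 ξ).u.cnt).image (Sum.inr (α := K)))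
    refine h2.mono ?_
    rintro (a | j) hi
    · refine Or.inl ⟨a, ?_, rfl⟩
      by_contra hcon
      simp only [mem_union, mem_ofPred_eq, not_or, not_not] at hcon
      apply hi
      simp only [f]
      rw [hcon.1, hcon.2]
    · refine Or.inr ⟨j, ?_, rfl⟩
      by_contra hcon
      simp only [mem_union, mem_ofPred_eq, not_or, not_not] at hcon
      apply hi
      simp only [f]
      rw [hcon.1, hcon.2]) (by
    rintro (a | j)
    · have h2 : (range fun ξ => f ξ (Sum.inl a)) ⊆ (fun x : List Bool × List Bool =>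
          (x, ((none, none) : Option (ℕ → Set (Co K)) × Option (ℕ → Set (Co K))))) '' univ := by
        rintro _ ⟨ξ, rfl⟩
        exact ⟨_, trivial, rfl⟩
      exact ((countable_univ.image _).mono h2).le_aleph0.trans_lt hμ.aleph0_lt
    · by_cases hj : j ∈ Bb m
      · have hV := lt_vals hμ (K := K) (j := j) (by
          rcases hj with hj | hj
          · exact Or.inr (hcnt _ hj)
          · exact Or.inl hj)
        have h3 := lt_prod hμ hV hV
        refine lt_of_le_of_lt ?_ h3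
        have h4 : ∀ s : range fun ξ => f ξ (Sum.inr j), (∀ g, s.1.2.1 = some g → ∀ n,
            NmOK j (g n)) ∧ ∀ g, s.1.2.2 = some g → ∀ n, NmOK j (g n) := by
          rintro ⟨_, ξ, rfl⟩
          exact ⟨fun g hg => (c0 ξ).u.ok j g hg, fun g hg => (c1 ξ).u.ok j g hg⟩
        refine mk_le_of_injective (f := fun s : range fun ξ => f ξ (Sum.inr j) =>
          ((⟨s.1.2.1, (h4 s).1⟩, ⟨s.1.2.2, (h4 s).2⟩) :
            {o : Option (ℕ → Set (Co K)) | ∀ g, o = some g → ∀ n, NmOK j (g n)} ×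
            {o : Option (ℕ → Set (Co K)) | ∀ g, o = some g → ∀ n, NmOK j (g n)})) ?_
        rintro ⟨_, ξ, rfl⟩ ⟨_, ζ, rfl⟩ hh
        simp only [Prod.mk.injEq, Subtype.mk.injEq] at hh
        exact Subtype.ext (Prod.ext rfl (Prod.ext hh.1 hh.2))
      · have h2 : (range fun ξ => f ξ (Sum.inr j)) ⊆ {(([], []), (none, none))} := by
          rintro _ ⟨ξ, rfl⟩
          change (([], []), ((c0 ξ).u.v j, (c1 ξ).u.v j)) = _
          rw [res_supp_u (h0 ξ) hj, res_supp_u (h1 ξ) hj]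
        exact (((countable_singleton _).mono h2)).le_aleph0.trans_lt hμ.aleph0_lt)
  refine ⟨η, ξ, hlt, ⟨fun a => ?_, fun j => ?_⟩, ⟨fun a => ?_, fun j => ?_⟩⟩
  · have h2 := h (Sum.inl a)
    simp only [f, Prod.mk.injEq, and_true] at h2
    rcases h2 with h2 | h2 | h2
    · exact Or.inl h2.1
    · exact Or.inr (Or.inl h2.1)
    · exact Or.inr (Or.inr h2.1)
  · have h2 := h (Sum.inr j)
    simp only [f, Prod.mk.injEq, true_and] at h2
    rcases h2 with h2 | h2 | h2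
    · exact Or.inl h2.1
    · exact Or.inr (Or.inl h2.1)
    · exact Or.inr (Or.inr h2.1)
  · have h2 := h (Sum.inl a)
    simp only [f, Prod.mk.injEq, and_true] at h2
    rcases h2 with h2 | h2 | h2
    · exact Or.inl h2.2
    · exact Or.inr (Or.inl h2.2)
    · exact Or.inr (Or.inr h2.2)
  · have h2 := h (Sum.inr j)
    simp only [f, Prod.mk.injEq, true_and] at h2
    rcases h2 with h2 | h2 | h2
    · exact Or.inl h2.2
    · exact Or.inr (Or.inl h2.2)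
    · exact Or.inr (Or.inr h2.2)

theorem stepB {μ : Cardinal.{0}} (hμ : μ.IsInaccessible) {L : Type} {d : L → Set (Pc K)} {m : K}
    (hcnt : ∀ a < m, #(NmT K a) < μ) {X : Set L} {Nn : Set (L → Set (Pc K))}
    (h1 : ∀ τ ∈ Nn, ∀ l ∈ X, ∀ r, r ∈ meets (τ l) → rm m r ∈ meets (τ l)) {r0 : Pc K}
    (h2 : ∀ S ⊆ X, #S < μ → ∀ r ≤ r0, ∃ r' ≤ r, ∃ τ ∈ Nn, r' ∈ Gp.EqOn d τ S)
    (hst : ∀ l ∈ X, ∀ s0 ≤ r0, ∀ s1 ≤ r0, rb m s0 = rb m s1 → s0 ∈ meets (d l) →
      s1 ∉ fnot (meets (d l))) :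
    ∃ r ≤ r0, ∀ l ∈ X, ∀ s0 ≤ r, ∀ s1 ≤ r, rm m s0 = rm m s1 → s0 ∈ meets (d l) →
      s1 ∉ fnot (meets (d l)) := by
  classical
  by_contra hcon
  push Not at hcon
  have H : ∀ S : Set L, S ⊆ X → #S < μ → ∃ (τ : L → Set (Pc K)) (l : L) (s0 s1 : Pc K), τ ∈ Nn ∧
      l ∈ X ∧ s0 ≤ r0 ∧ s1 ≤ r0 ∧ s0 ∈ Gp.EqOn d τ S ∧ s1 ∈ Gp.EqOn d τ S ∧ rm m s0 = rm m s1 ∧
        s0 ∈ meets (d l) ∧ s1 ∈ fnot (meets (d l)) := by
    intro S hS hSc
    obtain ⟨r', hr', τ, hτ, h3⟩ := h2 S hS hSc r0 le_rfl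
    obtain ⟨l, hl, s0, hs0, s1, hs1, h4, h5, h6⟩ := hcon r' hr'
    exact ⟨τ, l, s0, s1, hτ, hl, hs0.trans hr', hs1.trans hr', down_EqOn _ h3 _ hs0,
      down_EqOn _ h3 _ hs1, h4, h5, h6⟩
  obtain ⟨τd, ld, s0d, s1d, _⟩ := H ∅ (empty_subset _) (by
    rw [mk_eq_zero]
    exact aleph0_pos.trans hμ.aleph0_lt)
  have H' : ∀ S : Set L, ∃ (τ : L → Set (Pc K)) (l : L) (s0 s1 : Pc K), (S ⊆ X ∧ #S < μ) →
      τ ∈ Nn ∧ l ∈ X ∧ s0 ≤ r0 ∧ s1 ≤ r0 ∧ s0 ∈ Gp.EqOn d τ S ∧ s1 ∈ Gp.EqOn d τ S ∧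
        rm m s0 = rm m s1 ∧ s0 ∈ meets (d l) ∧ s1 ∈ fnot (meets (d l)) := by
    intro S
    by_cases hS : S ⊆ X ∧ #S < μ
    · obtain ⟨τ, l, s0, s1, h⟩ := H S hS.1 hS.2
      exact ⟨τ, l, s0, s1, fun _ => h⟩
    · exact ⟨τd, ld, s0d, s1d, fun h => absurd h hS⟩
  choose τ ℓ S0 S1 hH using H'
  let wf := wellFounded_lt (α := Ik μ)
  let g : Ik μ → L := wf.fix fun γ ih => ℓ {x | ∃ γ', ∃ h : γ' < γ, x = ih γ' h}
  have hg : ∀ γ, g γ = ℓ {x | ∃ γ', ∃ _ : γ' < γ, x = g γ'} := fun γ => wf.fix_eq _ γ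
  let S : Ik μ → Set L := fun γ => {x | ∃ γ', ∃ _ : γ' < γ, x = g γ'}
  have hgS : ∀ γ, g γ = ℓ (S γ) := hg
  have hSc : ∀ γ, #(S γ) < μ := by
    intro γ
    have h3 : S γ ⊆ g '' Iio γ := by
      rintro _ ⟨γ', h, rfl⟩
      exact ⟨γ', h, rfl⟩
    exact (mk_le_mk_of_subset h3).trans_lt (mk_image_le.trans_lt (mk_IioK γ))
  have hgX : ∀ γ, g γ ∈ X := by
    intro γ
    induction γ using WellFounded.induction (wellFounded_lt (α := Ik μ)) with
    | _ γ ih =>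
      rw [hgS γ]
      refine (hH (S γ) ⟨?_, hSc γ⟩).2.1
      rintro _ ⟨γ', h, rfl⟩
      exact ih γ' h
  have hSX : ∀ γ, S γ ⊆ X := by
    rintro γ _ ⟨γ', h, rfl⟩
    exact hgX γ'
  obtain ⟨η, ξ, hlt, hA0, hA1⟩ := cc_pairs hμ hcnt (fun γ => rb m (S0 (S γ)))
    (fun γ => rb m (S1 (S γ))) (fun _ => rb_idem) fun _ => rb_idem
  obtain ⟨hη1, hη2, hη3, hη4, hη5, hη6, hη7, hη8, hη9⟩ := hH (S η) ⟨hSX η, hSc η⟩
  obtain ⟨hξ1, hξ2, hξ3, hξ4, hξ5, hξ6, hξ7, hξ8, hξ9⟩ := hH (S ξ) ⟨hSX ξ, hSc ξ⟩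
  rw [← hgS η] at hη8 hη9
  set J0 := join (rb m (S0 (S η))) (rb m (S0 (S ξ))) with hJ0
  set J1 := join (rb m (S1 (S η))) (rb m (S1 (S ξ))) with hJ1
  have hJ0r : rb m J0 = J0 := res_join_self rb_idem rb_idem
  have hJ1r : rb m J1 = J1 := res_join_self rb_idem rb_idem
  have hJm : rm m J0 = rm m J1 := by
    refine res_join ?_ ?_
    · have h3 : rm m (rb m (S0 (S η))) = rm m (rb m (S1 (S η))) := by
        rw [rm_rb, rm_rb, hη7]
      exact h3
    · have h3 : rm m (rb m (S0 (S ξ))) = rm m (rb m (S1 (S ξ))) := by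
        rw [rm_rb, rm_rb, hξ7]
      exact h3
  have a0 : gb m J0 (S0 (S η)) ≤ S0 (S η) := gb_le hJ0r join_le_left
  have a1 : gb m J0 (S0 (S ξ)) ≤ S0 (S ξ) := gb_le hJ0r (join_le_right hA0)
  have b0 : gb m J1 (S1 (S η)) ≤ S1 (S η) := gb_le hJ1r join_le_left
  have b1 : gb m J1 (S1 (S ξ)) ≤ S1 (S ξ) := gb_le hJ1r (join_le_right hA1)
  have hmem : g η ∈ S ξ := ⟨η, hlt, rfl⟩
  have claimA : gb m J0 (S0 (S ξ)) ∈ meets (d (g η)) := by
    by_contra hcon2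
    obtain ⟨q, hq, hqn⟩ := not_meets hcon2
    have h3 : rb m q ≤ J0 := by
      have := rb_mono (m := m) hq
      rwa [rb_gb hJ0r] at this
    have h4 : gb m (rb m q) (gb m J0 (S0 (S η))) ≤ gb m J0 (S0 (S η)) :=
      gb_le rb_idem (by rw [rb_gb hJ0r]; exact h3)
    exact hst _ (hgX η) _ ((h4.trans a0).trans hη3) q ((hq.trans a1).trans hξ3)
      (rb_gb rb_idem) (down_meets _ _ hη8 _ (h4.trans a0)) hqn
  have claimB : gb m J1 (S1 (S ξ)) ∈ fnot (meets (d (g η))) := by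
    intro q hq hqy
    have h3 : rb m q ≤ J1 := by
      have := rb_mono (m := m) hq
      rwa [rb_gb hJ1r] at this
    have h4 : gb m (rb m q) (gb m J1 (S1 (S η))) ≤ gb m J1 (S1 (S η)) :=
      gb_le rb_idem (by rw [rb_gb hJ1r]; exact h3)
    exact hst _ (hgX η) q ((hq.trans b1).trans hξ4) _ ((h4.trans b0).trans hη4)
      (rb_gb rb_idem).symm hqy (down_fnot _ _ hη9 _ (h4.trans b0))
  have h3 := (down_EqOn _ hξ5 _ a1 (g η) hmem _ le_rfl).1 claimA
  have h4 := h1 _ hξ1 _ (hgX η) _ h3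
  have h5 : rm m (gb m J0 (S0 (S ξ))) = rm m (gb m J1 (S1 (S ξ))) := by
    rw [← rm_rb, rb_gb hJ0r, ← rm_rb (r := gb m J1 _), rb_gb hJ1r, hJm]
  rw [h5] at h4
  have h6 := down_meets _ _ h4 _ (le_rm (m := m) (r := gb m J1 (S1 (S ξ))))
  exact claimB _ le_rfl ((down_EqOn _ hξ6 _ b1 (g η) hmem _ le_rfl).2 h6)

theorem stepC {L : Type} {d : L → Set (Pc K)} {m : K} {X : Set L} {Nn : Set (L → Set (Pc K))}
    (h3 : ∀ σ : L → Set (Pc K), ∃ τ ∈ Nn, ∀ l ∈ X, ∀ s, rm m s = s → (s ∈ τ l ↔ s ∈ σ l))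
    (h4 : ∀ τ ∈ Nn, ∀ l ∈ X, ∀ r, r ∈ meets (τ l) → r ∈ meets {s | s ∈ τ l ∧ rm m s = s})
    {r0 : Pc K} (hst : ∀ l ∈ X, ∀ s0 ≤ r0, ∀ s1 ≤ r0, rm m s0 = rm m s1 → s0 ∈ meets (d l) →
      s1 ∉ fnot (meets (d l))) : ∃ τ ∈ Nn, r0 ∈ Gp.EqOn d τ X := by
  obtain ⟨τ, hτ, h⟩ := h3 fun l => {s | ∃ r ≤ r0, rm m r = s ∧ r ∈ meets (d l)}
  refine ⟨τ, hτ, fun l hl q hq => ⟨fun hy => ?_, fun hy => ?_⟩⟩
  · exact meets_of_le ((h l hl (rm m q) rm_idem).2 ⟨q, hq, rfl, hy⟩) le_rm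
  · by_contra hcon
    obtain ⟨q1, hq1, hn⟩ := not_meets hcon
    obtain ⟨q2, hq2, s, ⟨hs1, hs2⟩, hqs⟩ := h4 τ hτ l hl q hy q1 hq1
    obtain ⟨r, hr, hrs, hry⟩ := (h l hl s hs2).1 hs1
    have h5 : rm m q2 ≤ rm m r := by
      rw [hrs, ← hs2]
      exact rm_mono hqs
    have h6 : glue (Iio m) (Bm m) (rm m q2) r ≤ r := glue_le rm_idem h5
    exact hst l hl _ (h6.trans hr) q2 ((hq2.trans hq1).trans hq) (res_glue rm_idem)
      (down_meets _ _ hry _ h6) (down_fnot _ _ hn _ hq2)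

/-- the main result on approximations -/
theorem approx {μ : Cardinal.{0}} (hμ : μ.IsInaccessible) {L : Type} {d : L → Set (Pc K)} {m : K}
    (hcnt : ∀ a < m, #(NmT K a) < μ) {X : Set L} {Nn : Set (L → Set (Pc K))}
    (h3 : ∀ σ : L → Set (Pc K), ∃ τ ∈ Nn, ∀ l ∈ X, ∀ s, rm m s = s → (s ∈ τ l ↔ s ∈ σ l))
    (h4 : ∀ τ ∈ Nn, ∀ l ∈ X, ∀ r, r ∈ meets (τ l) → r ∈ meets {s | s ∈ τ l ∧ rm m s = s})
    {r0 : Pc K} (h2 : ∀ S ⊆ X, #S < μ → ∀ r ≤ r0, ∃ r' ≤ r, ∃ τ ∈ Nn, r' ∈ Gp.EqOn d τ S) :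
    ∃ r ≤ r0, ∃ τ ∈ Nn, r ∈ Gp.EqOn d τ X := by
  have h1 : ∀ τ ∈ Nn, ∀ l ∈ X, ∀ r, r ∈ meets (τ l) → rm m r ∈ meets (τ l) := by
    intro τ hτ l hl r hr
    have h5 := res_mem_meets (cl_m m) (fun s hs => hs.2) (h4 τ hτ l hl r hr)
    intro q hq
    obtain ⟨q', hq', s, hs, hqs⟩ := h5 q hq
    exact ⟨q', hq', s, hs.1, hqs⟩
  obtain ⟨r1, hr1, hst1⟩ := stepA (m := m) h1 fun S hS hSc r hr =>
    h2 S hS (hSc.le_aleph0.trans_lt hμ.aleph0_lt) r hr
  obtain ⟨r2, hr2, hst2⟩ := stepB hμ hcnt h1 (fun S hS hSc r hr => h2 S hS hSc r (hr.trans hr1))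
    hst1
  obtain ⟨τ, hτ, h5⟩ := stepC h3 h4 hst2
  exact ⟨r2, hr2.trans hr1, τ, hτ, h5⟩

end

end Pool.Agent.W873.Vi
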