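import Mathlib
import Pool.Agent.W873.Vi.StepB

set_option autoImplicit false
set_option linter.unusedSectionVars false

/-!
# Countable sets of the extension, the new subset of `ω₁` and the collapse
-/

namespace Pool.Agent.W873.Vi

open Set Cardinal Pool.Agent.Helper669.Forcing Pool.Agent.W873.Gp

section

variable {K : Type} [LinearOrder K]

theorem merge_le {A : Set K} {p0 : Co K} {u' : Ud K} {q : Pc K} (hq : q ≤ ⟨p0, u'⟩) {t : Co K}
    (ht : t ≤ Co.mrg A q.p Co.one) (hts : ∀ a, a ∉ A → t.v a = []) :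
    (⟨Co.mrg A t q.p, q.u⟩ : Pc K) ≤ q ∧ (⟨Co.mrg A t q.p, q.u⟩ : Pc K) ≤ ⟨t, u'⟩ := by
  have h3 : Co.mrg A t q.p ≤ q.p := by
    intro a
    by_cases ha : a ∈ A
    · rw [Co.mrg_pos ha]
      have := ht a
      rwa [Co.mrg_pos ha] at this
    · rw [Co.mrg_neg ha]
  have h4 : Co.mrg A t q.p ≤ t := by
    intro a
    by_cases ha : a ∈ A
    · rw [Co.mrg_pos ha]
    · rw [hts a ha]
      exact List.nil_prefix
  refine ⟨⟨h3, fun j f hf => ⟨f, hf, fun _ _ _ => Iff.rfl⟩⟩, ⟨h4, fun j f hf => ?_⟩⟩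
  obtain ⟨g, hg, h5⟩ := hq.2 j f hf
  exact ⟨g, hg, fun n q hq => h5 n q (hq.trans h3)⟩

/-- a countable set of the extension is covered by a countable set of the ground model -/
theorem countable_cover {Z : Type} (E : ℕ → Z → Set (Pc K)) {r : Pc K}
    (huniq : ∀ k z z', ∀ q ≤ r, q ∈ meets (E k z) → q ∈ meets (E k z') → z = z') :
    ∃ r' ≤ r, ∃ C : Set Z, C.Countable ∧ ∀ k z, ∀ q ≤ r', q ∈ meets (E k z) → z ∈ C := by
  rcases isEmpty_or_nonempty Z with hZ | ⟨⟨z0⟩⟩
  · exact ⟨r, le_rfl, ∅, countable_empty, fun _ z => (hZ.false z).elim⟩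
  obtain ⟨u', hu', A, hA, hp0, C, hC, hfus⟩ := fusion (Z := Z) (p0 := r.p) (u0 := r.u)
    (Φ := fun k t0 _ u z => (⟨t0, u⟩ : Pc K) ∈ meets (E k z) ∨
      ∀ z', ∀ q ≤ (⟨t0, u⟩ : Pc K), q ∉ meets (E k z'))
    (fun k t0 t1 u z h w hw => by
      rcases h with h | h
      · exact Or.inl (down_meets _ _ h _ (Pc.mk_le le_rfl hw))
      · exact Or.inr fun z' q hq => h z' q (hq.trans (Pc.mk_le le_rfl hw))) (by
    intro k t _ u _
    by_cases h : ∃ q ≤ (⟨t, u⟩ : Pc K), ∃ z, q ∈ meets (E k z)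
    · obtain ⟨q, hq, z, hz⟩ := h
      obtain ⟨w, hw, h1, _⟩ := literal hq
      exact ⟨w, hw, q.p, hq.1, q.p, hq.1, z, Or.inl (down_meets _ _ hz _ h1)⟩
    · push Not at h
      exact ⟨u, le_rfl, t, le_rfl, t, le_rfl, z0, Or.inr fun z' q hq => h q hq z'⟩)
  refine ⟨⟨r.p, u'⟩, Pc.mk_le le_rfl hu', C, hC, fun k z q hq hqz => ?_⟩
  have ht : Co.mrg A q.p Co.one ≤ r.p := by
    intro a
    by_cases ha : a ∈ A
    · rw [Co.mrg_pos ha]
      exact hq.1 a
    · rw [hp0 a ha]
      exact List.nil_prefix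
  obtain ⟨t0, ht0, t1, ht1, hs0, hs1, z', hz', hΦ⟩ := hfus k _ ht
    fun a ha => by rw [Co.mrg_neg ha]; rfl
  obtain ⟨h1, h2⟩ := merge_le hq ht0 hs0
  rcases hΦ with hΦ | hΦ
  · have := huniq k z z' _ (h1.trans (hq.trans (Pc.mk_le le_rfl hu')))
      (down_meets _ _ hqz _ h1) (down_meets _ _ hΦ _ h2)
    rwa [this]
  · exact absurd (down_meets _ _ hqz _ h1) (hΦ z _ h2)

/-- adding a value -/
theorem exists_add (r : Pc K) {S : Set (Ix K)} (hS : S.Countable) (f : Ix K → ℕ → Set (Co K))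
    (hf : ∀ j ∈ S, ∀ n, NmOK j (f j n)) : ∃ r' ≤ r, r'.p = r.p ∧ ∀ j ∈ S, r.u.v j = none →
      r'.u.v j = some (f j) := by
  classical
  let v : Ix K → Option (ℕ → Set (Co K)) := fun j =>
    if r.u.v j ≠ none then r.u.v j else if j ∈ S then some (f j) else none
  have h1 : ∀ j g, r.u.v j = some g → v j = some g := by
    intro j g hg
    simp only [v]
    rw [if_pos (by simp [hg]), hg]
  have h2 : ∀ j, r.u.v j = none → j ∈ S → v j = some (f j) := by
    intro j hj hjS
    simp only [v]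
    rw [if_neg (by simp [hj]), if_pos hjS]
  have h3 : ∀ j, r.u.v j = none → j ∉ S → v j = none := by
    intro j hj hjS
    simp only [v]
    rw [if_neg (by simp [hj]), if_neg hjS]
  refine ⟨⟨r.p, ⟨v, ?_, ?_⟩⟩, ⟨le_rfl, fun j g hg => ⟨g, h1 j g hg, fun _ _ _ => Iff.rfl⟩⟩, rfl,
    fun j hj hn => h2 j hn hj⟩
  · refine (r.u.cnt.union hS).mono fun j hj => ?_
    by_contra hcon
    simp only [mem_union, mem_ofPred_eq, not_or, not_not] at hcon
    exact hj (h3 j hcon.1 hcon.2)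
  · intro j g hg n
    rcases h4 : r.u.v j with _ | k
    · by_cases hjS : j ∈ S
      · rw [h2 j h4 hjS] at hg
        obtain rfl := Option.some.inj hg
        exact hf j hjS n
      · rw [h3 j h4 hjS] at hg
        exact absurd hg (by simp)
    · rw [h1 j k h4] at hg
      obtain rfl := Option.some.inj hg
      exact r.u.ok j _ h4 n

theorem exists_free (r : Pc K) (a : K) (b : Bool) : ∃ i : W, r.u.v (a, i, b) = none := by
  by_contra hcon
  push Not at hcon
  have h1 : (univ : Set W).Countable := by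
    refine Set.MapsTo.countable_of_injOn (f := fun i : W => ((a, i, b) : Ix K))
      (t := {j | r.u.v j ≠ none}) (fun i _ => hcon i) (fun i _ i' _ h => ?_) r.u.cnt
    simp only [Prod.mk.injEq, true_and, and_true] at h
    exact h
  have h2 : #W ≤ ℵ₀ := by
    rw [← mk_univ]
    exact h1.le_aleph0
  rw [mk_ord_toType] at h2
  exact absurd h2 (not_le.2 aleph0_lt_aleph_one)

/-! ### The new subset of `ω₁` -/

/-- the name for the new set -/
def fresh {L : Type} (m : K) (e : W → L) : L → Set (Pc K) := fun l =>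
  {r | ∃ i, e i = l ∧ ∃ f, r.u.v (m, i, true) = some f ∧ Co.one ∈ f 0}

theorem eq_one {m : K} {i : W} {r : Pc K} {f : ℕ → Set (Co K)} (hf : r.u.v (m, i, true) = some f)
    {n : ℕ} {s : Co K} (hs : s ∈ f n) : s = Co.one :=
  Co.ext (funext fun b => r.u.ok _ f hf n s hs b (Or.inl rfl))

theorem one_mem_iff {m : K} {i : W} {r : Pc K} {f : ℕ → Set (Co K)}
    (hf : r.u.v (m, i, true) = some f) {n : ℕ} {q : Co K} : q ∈ meets (f n) ↔ Co.one ∈ f n := by
  constructor
  · intro h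
    obtain ⟨_, _, s, hs, _⟩ := h q le_rfl
    rwa [eq_one hf hs] at hs
  · exact fun h => meets_of_le h q.le_one

theorem fresh_decided {L : Type} {m : K} {e : W → L} (he : Function.Injective e) {i : W}
    {r : Pc K} {f : ℕ → Set (Co K)} (hf : r.u.v (m, i, true) = some f) {q : Pc K} (hq : q ≤ r) :
    q ∈ meets (fresh m e (e i)) ↔ Co.one ∈ f 0 := by
  have key : ∀ q ≤ r, ∃ g, q.u.v (m, i, true) = some g ∧ (Co.one ∈ g 0 ↔ Co.one ∈ f 0) := by
    intro q hq
    obtain ⟨g, hg, h1⟩ := hq.2 _ f hf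
    refine ⟨g, hg, ?_⟩
    have h2 := h1 0 q.p le_rfl
    rwa [one_mem_iff hg, one_mem_iff hf] at h2
  constructor
  · intro h
    obtain ⟨q1, hq1, s, ⟨i', hi', g, hg, h1⟩, hqs⟩ := h q le_rfl
    obtain rfl := he hi'
    obtain ⟨k, hk, h2⟩ := key q1 (hq1.trans hq)
    obtain ⟨k', hk', h3⟩ := hqs.2 _ g hg
    rw [hk] at hk'
    obtain rfl := Option.some.inj hk'
    refine h2.1 ?_
    have h4 := h3 0 q1.p le_rfl
    rw [one_mem_iff hk, one_mem_iff hg] at h4
    exact h4.2 h1
  · intro h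
    obtain ⟨g, hg, h1⟩ := key q hq
    exact meets_of_mem ⟨i, rfl, g, hg, h1.2 h⟩

theorem nmOK_true {a : K} {i : W} (N : Set (Co K)) (h : N ⊆ {Co.one}) : NmOK (a, i, true) N := by
  intro s hs b _
  rw [h hs]
  rfl

/-- the new set is approximated by countable sets of the ground model -/
theorem fresh_approx {L : Type} (m : K) {e : W → L} (he : Function.Injective e) {r : Pc K}
    {C : Set L} (hC : C.Countable) : ∃ r' ≤ r, ∃ S ⊆ range e, S.Countable ∧ ∀ l ∈ C,
      ∀ q ≤ r', (q ∈ meets (fresh m e l) ↔ l ∈ S) := by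
  classical
  have hS : {j : Ix K | j.1 = m ∧ j.2.2 = true ∧ e j.2.1 ∈ C}.Countable := by
    refine Set.MapsTo.countable_of_injOn (f := fun j : Ix K => e j.2.1) (fun j hj => hj.2.2) ?_ hC
    rintro ⟨a, i, b⟩ ⟨h1, h2, _⟩ ⟨a', i', b'⟩ ⟨h1', h2', _⟩ h
    simp only at h1 h2 h1' h2' h
    rw [h1, h1', h2, h2', he h]
  obtain ⟨r', hr', hp, h1⟩ := exists_add r hS (fun _ _ => ∅) (by
    intro j _ n s hs
    exact absurd hs (by simp))
  have h2 : ∀ i, e i ∈ C → ∃ f, r'.u.v (m, i, true) = some f := by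
    intro i hi
    rcases h3 : r.u.v (m, i, true) with _ | g
    · exact ⟨_, h1 (m, i, true) ⟨rfl, rfl, hi⟩ h3⟩
    · obtain ⟨k, hk, _⟩ := hr'.2 _ g h3
      exact ⟨k, hk⟩
  refine ⟨r', hr', {l | l ∈ C ∧ ∃ i, e i = l ∧ ∃ f, r'.u.v (m, i, true) = some f ∧
    Co.one ∈ f 0}, ?_, hC.mono fun l hl => hl.1, fun l hl q hq => ?_⟩
  · rintro l ⟨_, i, hi, _⟩
    exact ⟨i, hi⟩
  · by_cases hle : ∃ i, e i = l
    · obtain ⟨i, rfl⟩ := hle
      obtain ⟨f, hf⟩ := h2 i hl
      rw [fresh_decided he hf hq]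
      constructor
      · exact fun h => ⟨hl, i, rfl, f, hf, h⟩
      · rintro ⟨_, i', hi', g, hg, h⟩
        obtain rfl := he hi'
        rw [hf] at hg
        obtain rfl := Option.some.inj hg
        exact h
    · constructor
      · intro h
        obtain ⟨_, _, s, ⟨i, hi, _⟩, _⟩ := h q le_rfl
        exact absurd ⟨i, hi⟩ hle
      · rintro ⟨_, i, hi, _⟩
        exact absurd ⟨i, hi⟩ hle

/-- the new set is not guessed -/
theorem fresh_not_guessed {L : Type} {m : K} {e : W → L} (he : Function.Injective e)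
    {τ : L → Set (Pc K)} (hτ : ∀ i, ∀ r, r ∈ meets (τ (e i)) → rm m r ∈ meets (τ (e i)))
    {r : Pc K} (h : ∀ i, r ∈ Gp.EqOn (fresh m e) τ {e i}) : False := by
  obtain ⟨i, hi⟩ := exists_free r m true
  obtain ⟨q, hq, hdec⟩ := decide_meets (τ (e i)) r
  have h1 : rm m q ≤ rm m r := rm_mono hq
  set g := glue (Iio m) (Bm m) (rm m q) r with hg
  have hg1 : g ≤ r := glue_le rm_idem h1
  have hg2 : g ≤ rm m q := glue_le' rm_idem
  have hgi : g.u.v (m, i, true) = none := by
    rw [← hi]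
    exact glue_u_neg (lt_irrefl m)
  rcases hdec with hdec | hdec
  · have h2 : g ∈ meets (τ (e i)) := down_meets _ _ (hτ i q hdec) _ hg2
    obtain ⟨s, hs, _, hs2⟩ := exists_add g (countable_singleton ((m, i, true) : Ix K))
      (fun _ _ => ∅) (fun _ _ _ s hs => absurd hs (by simp))
    have h3 := hs2 _ rfl hgi
    have h4 := (h i (e i) rfl s (hs.trans hg1)).2 (down_meets _ _ h2 _ hs)
    rw [fresh_decided he h3 le_rfl] at h4
    exact h4
  · have h2 : g ∈ fnot (meets (τ (e i))) := by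
      intro q1 hq1 hy
      have h3 := hτ i q1 hy
      have h4 : rm m q1 ≤ rm m q := by
        have := rm_mono (m := m) (hq1.trans hg2)
        rwa [rm_idem] at this
      have h5 : glue (Iio m) (Bm m) (rm m q1) q ≤ q := glue_le rm_idem h4
      exact hdec _ h5 (down_meets _ _ h3 _ (glue_le' rm_idem))
    obtain ⟨s, hs, _, hs2⟩ := exists_add g (countable_singleton ((m, i, true) : Ix K))
      (fun _ _ => {Co.one}) (by
        rintro _ rfl n
        exact nmOK_true _ subset_rfl)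
    have h3 := hs2 _ rfl hgi
    have h4 : s ∈ meets (fresh m e (e i)) := by
      rw [fresh_decided he h3 le_rfl]
      rfl
    exact h2 s hs ((h i (e i) rfl s (hs.trans hg1)).1 h4)

/-! ### The collapse -/

/-- the name for the `n`-th digit of the Cohen real `b` -/
def cr (b : K) (n : ℕ) : Set (Co K) := {s | (s.v b)[n]? = some true ∧ ∀ c, c ≠ b → s.v c = []}

/-- the conditions which force that the block `i` at `a` is the Cohen real `b` -/
def cl (a : K) (i : W) (b : K) : Set (Pc K) :=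
  {r | ∃ f, r.u.v (a, i, false) = some f ∧ ∀ n, ∀ q ≤ r.p, (q ∈ meets (f n) ↔ q ∈ meets (cr b n))}

theorem down_cl {a : K} {i : W} {b : K} : Down (cl a i b) := by
  rintro r ⟨f, hf, h⟩ q hq
  obtain ⟨g, hg, h1⟩ := hq.2 _ f hf
  exact ⟨g, hg, fun n s hs => (h1 n s hs).trans (h n s (hs.trans hq.1))⟩

theorem cl_dense (r : Pc K) {a b : K} (hab : b ≤ a) : ∃ r' ≤ r, ∃ i, r' ∈ cl a i b := by
  obtain ⟨i, hi⟩ := exists_free r a false
  obtain ⟨s, hs, _, hs2⟩ := exists_add r (countable_singleton ((a, i, false) : Ix K))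
    (fun _ n => cr b n) (by
      rintro _ rfl n s hs c hc
      rcases hc with hc | hc
      · exact absurd hc (by simp)
      · exact hs.2 c (ne_of_gt (lt_of_le_of_lt hab hc)))
  exact ⟨s, hs, i, _, hs2 _ rfl hi, fun n q _ => Iff.rfl⟩

theorem getElem?_of_prefix {l l' : List Bool} (h : l <+: l') {n : ℕ} {b : Bool}
    (hn : l[n]? = some b) : l'[n]? = some b := by
  obtain ⟨t, rfl⟩ := h
  obtain ⟨h1, _⟩ := List.getElem?_eq_some_iff.1 hn
  rw [List.getElem?_append_left h1]
  exact hn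

theorem cl_unique {a : K} {i : W} {b b' : K} {r : Pc K} (h : r ∈ cl a i b) (h' : r ∈ cl a i b') :
    b = b' := by
  by_contra hne
  obtain ⟨f, hf, h1⟩ := h
  obtain ⟨g, hg, h2⟩ := h'
  rw [hf] at hg
  obtain rfl := Option.some.inj hg
  set n := (r.p.v b).length + (r.p.v b').length with hn
  set q1 := r.p.app b (List.replicate (n - (r.p.v b).length) false ++ [true]) with hq1
  set q2 := q1.app b' (List.replicate (n - (r.p.v b').length) false ++ [false]) with hq2
  have hq : q2 ≤ r.p := (Co.app_le _ _ _).trans (Co.app_le _ _ _)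
  have e1 : (q2.v b)[n]? = some true := by
    rw [hq2, Co.app_ne _ _ hne, hq1, Co.app_same]
    rw [List.getElem?_append_right (by omega), List.getElem?_append_right (by simp)]
    simp
  have e2 : (q2.v b')[n]? = some false := by
    rw [hq2, Co.app_same, hq1, Co.app_ne _ _ (Ne.symm hne)]
    rw [List.getElem?_append_right (by omega), List.getElem?_append_right (by simp)]
    simp
  have h3 : q2 ∈ meets (cr b n) := by
    have h4 : q2 ≤ Co.mrg {b} q2 Co.one := by
      intro c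
      by_cases hc : c ∈ ({b} : Set K)
      · rw [Co.mrg_pos hc]
      · rw [Co.mrg_neg hc]
        exact List.nil_prefix
    refine meets_of_le ⟨?_, fun c hc => ?_⟩ h4
    · rw [Co.mrg_pos (mem_singleton b)]
      exact e1
    · rw [Co.mrg_neg (by simpa using hc)]
      rfl
  have h4 := (h2 n q2 hq).1 ((h1 n q2 hq).2 h3)
  obtain ⟨q3, hq3, s, hs, hqs⟩ := h4 q2 le_rfl
  have h5 : (q3.v b')[n]? = some true := getElem?_of_prefix (hqs b') hs.1
  have h6 : (q3.v b')[n]? = some false := getElem?_of_prefix (hq3 b') e2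
  rw [h5] at h6
  simp at h6

end

end Pool.Agent.W873.Vi
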