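import Mathlib
import Pool.Agent.W873.Vi.Pres
import Pool.Agent.W873.Tp.Large2

set_option autoImplicit false
set_option linter.unusedSectionVars false

/-!
# The chain condition
-/

namespace Pool.Agent.W873.Vi

open Set Cardinal Pool.Agent.Helper669.Forcing Pool.Agent.W873.Gp

variable {κ : Cardinal.{0}}

theorem mk_Iic_lt (hκ : κ.IsInaccessible) (a : Ik κ) : #(Iic a) < κ := by
  have h1 : (Iic a : Set (Ik κ)) = insert a (Iio a) := by
    ext x
    simp only [mem_Iic, mem_insert_iff, mem_Iio]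
    exact le_iff_eq_or_lt
  rw [h1]
  exact (mk_insert_le).trans_lt (add_lt_of_lt hκ.aleph0_lt.le (mk_IioK a)
    (one_lt_aleph0.trans hκ.aleph0_lt))

/-- Cohen conditions with a small support -/
theorem lt_Co (hκ : κ.IsInaccessible) {A : Set (Ik κ)} (hA : #A < κ) :
    #{t : Co (Ik κ) | ∀ a, a ∉ A → t.v a = []} < κ := by
  refine lt_of_le_of_lt ?_ (lt_fun hκ hA (B := List Bool) ?_)
  · refine mk_le_of_injective (f := fun t : {t : Co (Ik κ) | ∀ a, a ∉ A → t.v a = []} =>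
      fun a : A => t.1.v a.1) ?_
    rintro ⟨t, ht⟩ ⟨t', ht'⟩ h
    refine Subtype.ext (Co.ext (funext fun a => ?_))
    by_cases ha : a ∈ A
    · exact congrFun h ⟨a, ha⟩
    · rw [ht a ha, ht' a ha]
  · exact (mk_le_aleph0 (α := List Bool)).trans_lt hκ.aleph0_lt

theorem lt_NmT (hκ : κ.IsInaccessible) (a : Ik κ) : #(NmT (Ik κ) a) < κ := by
  refine lt_of_le_of_lt ?_ (lt_set hκ (lt_Co hκ (mk_Iic_lt hκ a)))
  refine mk_le_of_injective (f := fun N : NmT (Ik κ) a =>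
    {t : {t : Co (Ik κ) | ∀ b, b ∉ Iic a → t.v b = []} | t.1 ∈ N.1}) ?_
  intro N N' h
  have key : ∀ N : NmT (Ik κ) a, ∀ t, t ∈ N.1 → ∀ b, b ∉ Iic a → t.v b = [] := fun N t ht b hb =>
    N.2 t ht b (by simpa using hb)
  refine Subtype.ext (Set.ext fun t => ⟨fun ht => ?_, fun ht => ?_⟩)
  · have h1 : (⟨t, key N t ht⟩ : {t : Co (Ik κ) | ∀ b, b ∉ Iic a → t.v b = []}) ∈
      {t : {t : Co (Ik κ) | ∀ b, b ∉ Iic a → t.v b = []} | t.1 ∈ N.1} := ht
    simp only at h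
    rw [h] at h1
    exact h1
  · have h1 : (⟨t, key N' t ht⟩ : {t : Co (Ik κ) | ∀ b, b ∉ Iic a → t.v b = []}) ∈
      {t : {t : Co (Ik κ) | ∀ b, b ∉ Iic a → t.v b = []} | t.1 ∈ N'.1} := ht
    simp only at h
    rw [← h] at h1
    exact h1

/-- two of `κ` conditions are compatible -/
theorem cc (hκ : κ.IsInaccessible) (c : Ik κ → Pc (Ik κ)) :
    ∃ η ξ, η < ξ ∧ Agr (c η) (c ξ) := by
  classical
  let f : Ik κ → Ik κ ⊕ Ix (Ik κ) → List Bool × Option (ℕ → Set (Co (Ik κ))) :=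
    fun ξ i => match i with
    | Sum.inl a => ((c ξ).p.v a, none)
    | Sum.inr j => ([], (c ξ).u.v j)
  obtain ⟨η, ξ, hlt, h⟩ := delta hκ ([], none) f (fun ξ => by
    have h2 := ((c ξ).p.fin.countable.image Sum.inl).union
      ((c ξ).u.cnt.image (Sum.inr (α := Ik κ)))
    refine h2.mono ?_
    rintro (a | j) hi
    · refine Or.inl ⟨a, ?_, rfl⟩
      intro hcon
      apply hi
      simp only [f]
      rw [hcon]
    · refine Or.inr ⟨j, ?_, rfl⟩
      intro hcon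
      apply hi
      simp only [f]
      rw [hcon]) (by
    rintro (a | j)
    · have h2 : (range fun ξ => f ξ (Sum.inl a)) ⊆ (fun x : List Bool =>
          (x, (none : Option (ℕ → Set (Co (Ik κ)))))) '' univ := by
        rintro _ ⟨ξ, rfl⟩
        exact ⟨_, trivial, rfl⟩
      exact ((countable_univ.image _).mono h2).le_aleph0.trans_lt hκ.aleph0_lt
    · have hV := lt_vals hκ (K := Ik κ) (j := j) (Or.inr (lt_NmT hκ _))
      refine lt_of_le_of_lt ?_ hV
      have h4 : ∀ s : range fun ξ => f ξ (Sum.inr j), ∀ g, s.1.2 = some g → ∀ n,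
          NmOK j (g n) := by
        rintro ⟨_, ξ, rfl⟩
        exact fun g hg => (c ξ).u.ok j g hg
      refine mk_le_of_injective (f := fun s : range fun ξ => f ξ (Sum.inr j) =>
        (⟨s.1.2, h4 s⟩ :
          {o : Option (ℕ → Set (Co (Ik κ))) | ∀ g, o = some g → ∀ n, NmOK j (g n)})) ?_
      rintro ⟨_, ξ, rfl⟩ ⟨_, ζ, rfl⟩ hh
      simp only [Subtype.mk.injEq] at hh
      exact Subtype.ext (Prod.ext rfl hh))
  refine ⟨η, ξ, hlt, fun a => ?_, fun j => ?_⟩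
  · have h2 := h (Sum.inl a)
    simpa only [f, Prod.mk.injEq, and_true] using h2
  · have h2 := h (Sum.inr j)
    simpa only [f, Prod.mk.injEq, true_and] using h2

/-- an antichain has fewer than `κ` elements -/
theorem lt_antichain (hκ : κ.IsInaccessible) {S : Type} (c : S → Pc (Ik κ))
    (h : ∀ s s', s ≠ s' → ∀ q ≤ c s, ¬ q ≤ c s') : #S < κ := by
  by_contra hcon
  rw [not_lt] at hcon
  have h1 : #(Ik κ) ≤ #S := by
    rw [mk_ord_toType]
    exact hcon
  obtain ⟨g⟩ := h1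
  obtain ⟨η, ξ, hlt, hA⟩ := cc hκ fun ξ => c (g ξ)
  exact h (g η) (g ξ) (fun he => (ne_of_lt hlt) (g.injective he)) _ join_le_left
    (join_le_right hA)

/-- a small predense subset -/
theorem exists_small (hκ : κ.IsInaccessible) (N : Set (Pc (Ik κ))) :
    ∃ A ⊆ N, #A < κ ∧ ∀ r ∈ meets N, r ∈ meets A := by
  classical
  -- a maximal antichain in the downward closure
  let D : Set (Pc (Ik κ)) := {t | ∃ s ∈ N, t ≤ s}
  obtain ⟨M, hM⟩ := zorn_subset {M : Set (Pc (Ik κ)) | M ⊆ D ∧ ∀ s ∈ M, ∀ s' ∈ M, s ≠ s' →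
    ∀ q ≤ s, ¬ q ≤ s'} (by
    intro c hc hch
    refine ⟨⋃₀ c, ⟨?_, ?_⟩, fun s hs => subset_sUnion_of_mem hs⟩
    · rintro t ⟨M, hM, ht⟩
      exact (hc hM).1 ht
    · rintro s ⟨M, hM, hs⟩ s' ⟨M', hM', hs'⟩ hne
      rcases hch.total hM hM' with h | h
      · exact (hc hM').2 s (h hs) s' hs' hne
      · exact (hc hM).2 s hs s' (h hs') hne)
  have hMp := hM.prop
  have hmax : ∀ t ∈ D, ∃ s ∈ M, ∃ q ≤ t, q ≤ s := by
    intro t ht
    by_contra hcon
    push Not at hcon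
    have h1 : insert t M ∈ {M : Set (Pc (Ik κ)) | M ⊆ D ∧ ∀ s ∈ M, ∀ s' ∈ M, s ≠ s' →
        ∀ q ≤ s, ¬ q ≤ s'} := by
      refine ⟨insert_subset ht hMp.1, ?_⟩
      rintro s (rfl | hs) s' (rfl | hs') hne q hq hq'
      · exact hne rfl
      · exact hcon s' hs' q hq hq'
      · exact hcon s hs q hq' hq
      · exact hMp.2 s hs s' hs' hne q hq hq'
    have h2 := hM.le_of_ge h1 (subset_insert t M) (mem_insert t M)
    exact hcon t h2 t le_rfl le_rfl
  have hcard : #M < κ := lt_antichain hκ (fun s : M => s.1) fun s s' hne q hq hq' =>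
    hMp.2 s.1 s.2 s'.1 s'.2 (fun h => hne (Subtype.ext h)) q hq hq'
  choose g hg1 hg2 using fun t : M => hMp.1 t.2
  refine ⟨range g, ?_, mk_range_le.trans_lt hcard, fun r hr q hq => ?_⟩
  · rintro _ ⟨t, rfl⟩
    exact hg1 t
  · obtain ⟨q1, hq1, s, hs, hqs⟩ := hr q hq
    obtain ⟨t, ht, q2, h1, h2⟩ := hmax q1 ⟨s, hs, hqs⟩
    exact ⟨q2, h1.trans hq1, g ⟨t, ht⟩, ⟨_, rfl⟩, h2.trans (hg2 ⟨t, ht⟩)⟩

theorem lt_values (hκ : κ.IsInaccessible) {L : Type} (τ : L → Set (Pc (Ik κ))) :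
    #{l | ∃ r, r ∈ SEq τ (sing l)} < κ := by
  have h1 : ∀ l : {l | ∃ r, r ∈ SEq τ (sing l)}, ∃ r, r ∈ SEq τ (sing l.1) := fun l => l.2
  choose c hc using h1
  refine lt_antichain hκ c fun l l' hne q hq hq' => hne (Subtype.ext ?_)
  exact SEq_sing_unique (down_SEq _ (hc l) _ hq) (down_SEq _ (hc l') _ hq')

/-- the support -/
def supp (r : Pc (Ik κ)) : Set (Ik κ) := {a | r.p.v a ≠ []} ∪ (fun j => j.1) '' {j | r.u.v j ≠ none}

theorem supp_cnt (r : Pc (Ik κ)) : (supp r).Countable := r.p.fin.countable.union (r.u.cnt.image _)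

theorem rm_eq_iff {m : Ik κ} {r : Pc (Ik κ)} : rm m r = r ↔ ∀ a ∈ supp r, a < m := by
  constructor
  · rintro h a (ha | ⟨j, hj, rfl⟩)
    · by_contra hcon
      exact ha (res_supp_p h hcon)
    · by_contra hcon
      exact hj (res_supp_u h hcon)
  · intro h
    refine Pc.ext' (fun a => ?_) fun j => ?_
    · by_cases ha : a < m
      · exact res_p_pos ha
      · have h1 : (rm m r).p.v a = [] := res_p_neg ha
        rw [h1]
        by_contra hcon
        exact ha (h a (Or.inl (Ne.symm hcon)))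
    · by_cases ha : j.1 < m
      · exact res_u_pos ha
      · have h1 : (rm m r).u.v j = none := res_u_neg ha
        rw [h1]
        by_contra hcon
        exact ha (h j.1 (Or.inr ⟨j, Ne.symm hcon, rfl⟩))

theorem lt_rm (hκ : κ.IsInaccessible) (m : Ik κ) : #{r : Pc (Ik κ) | rm m r = r} < κ := by
  classical
  obtain ⟨w0, _⟩ := W_bdd ∅ countable_empty
  -- the names
  have hN : ∀ a : Iio m, #{o : Option (ℕ → Set (Co (Ik κ))) | ∀ g, o = some g → ∀ n,
      ∀ s ∈ g n, ∀ b, a.1 < b → s.v b = []} < κ := by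
    intro a
    have h1 := lt_vals hκ (K := Ik κ) (j := (a.1, w0, false))
      (Or.inr (lt_NmT hκ _))
    refine lt_of_le_of_lt (mk_le_mk_of_subset ?_) h1
    intro o ho g hg n s hs b hb
    rcases hb with hb | hb
    · exact absurd hb (by simp)
    · exact ho g hg n s hs b hb
  set V : Set (Option (ℕ → Set (Co (Ik κ)))) := ⋃ a : Iio m,
    {o : Option (ℕ → Set (Co (Ik κ))) | ∀ g, o = some g → ∀ n, ∀ s ∈ g n, ∀ b, a.1 < b →
      s.v b = []} with hV
  have hVc : #V < κ := lt_iUnion hκ.isRegular (mk_IioK m) _ hN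
  have hI : #(Iio m × W × Bool) < κ := lt_prod hκ (mk_IioK m) (lt_prod hκ (lt_W hκ)
    ((mk_le_aleph0 (α := Bool)).trans_lt hκ.aleph0_lt))
  refine lt_of_le_of_lt ?_ (lt_prod hκ (lt_Co hκ (mk_IioK m)) (lt_fun hκ hI hVc))
  have h1 : ∀ r : {r : Pc (Ik κ) | rm m r = r}, ∀ j : Iio m × W × Bool,
      r.1.u.v (j.1.1, j.2) ∈ V := by
    intro r j
    refine mem_iUnion.2 ⟨j.1, fun g hg n s hs b hb => ?_⟩
    exact r.1.u.ok _ g hg n s hs b (Or.inr hb)
  refine mk_le_of_injective (f := fun r : {r : Pc (Ik κ) | rm m r = r} =>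
    ((⟨r.1.p, fun a ha => res_supp_p r.2 ha⟩ : {t : Co (Ik κ) | ∀ a, a ∉ Iio m → t.v a = []}),
      fun j : Iio m × W × Bool => (⟨r.1.u.v (j.1.1, j.2), h1 r j⟩ : V))) ?_
  rintro ⟨r, hr⟩ ⟨s, hs⟩ h
  simp only [Prod.mk.injEq, Subtype.mk.injEq] at h
  refine Subtype.ext (Pc.ext h.1 (Ud.ext (funext fun j => ?_)))
  by_cases hj : j.1 < m
  · have h2 := congrFun h.2 (⟨j.1, hj⟩, j.2)
    simp only [Subtype.mk.injEq] at h2
    exact h2
  · have h2 : r.u.v j = none := res_supp_u (B := Bm m) hr hj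
    have h3 : s.u.v j = none := res_supp_u (B := Bm m) hs hj
    rw [h2, h3]

end Pool.Agent.W873.Vi
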