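import Mathlib
import Pool.Agent.W873.Gp.Defs
import Pool.Agent.W873.Tp.Large

set_option autoImplicit false

/-!
# Guessing models of size `ω₁` in the extension

The forcing relation is the one of `Pool.Agent.Helper669.Forcing`: a sentence is the set of the
conditions which force it. A name for a subset of a set `L` of the ground model is a map from `L` to
the sets of conditions. The definitions of `SEq` (equality), `inter` (intersection), `sing`
(singleton) and `AtMost` (having at most `κ` elements) are in `Pool.Agent.W873.Gp.Defs`, the one of
supercompact cardinals is in `Pool.Agent.W873.Tp.Large`.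
-/

namespace Pool.Agent.W873.Vi

open Cardinal Pool.Agent.Helper669.Forcing Pool.Agent.W873.Gp

/-- the countable ordinals -/
abbrev W1 : Type := (ℵ₁ : Cardinal.{0}).ord.ToType

/-- A name for a family of functions on the subsets of `L` with values in the subsets of `L`: for
`i < ω₁` and `n < ω` a function with `n` arguments. -/
abbrev Fns (L P : Type) : Type := W1 → (n : ℕ) → (Fin n → L → Set P) → L → Set P

section

variable {P : Type} [Preorder P] {L : Type}

/-- The values only depend on the sets, and not on the names. -/
def FExt (F : Fns L P) : Set P :=
  fall fun i : W1 => fall fun n : ℕ => fall fun s : Fin n → L → Set P =>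
    fall fun t : Fin n → L → Set P =>
      fimp (fall fun k : Fin n => SEq (s k) (t k)) (SEq (F i n s) (F i n t))

/-- The family `{Y j : j < ω₁}` of subsets of `L` is closed under the functions. -/
def FClosed (F : Fns L P) (Y : W1 → L → Set P) : Set P :=
  fall fun i : W1 => fall fun n : ℕ => fall fun s : Fin n → L → Set P =>
    fimp (fall fun k : Fin n => fex fun j : W1 => SEq (s k) (Y j))
      (fex fun k : W1 => SEq (F i n s) (Y k))

/-- `d` is `δ⁺`-approximated by the family: `d ∩ a` is in the family for all `a` in the family with
at most `δ` elements. -/
def ApproxAt (δ : Cardinal.{0}) (Y : W1 → L → Set P) (d : L → Set P) : Set P :=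
  fall fun j : W1 => fimp (AtMost δ (Y j)) (fex fun k : W1 => SEq (inter d (Y j)) (Y k))

/-- `d` is guessed by the family: some `e` in the family has the same elements as `d` among the
`l : L` such that `{l}` is in the family. -/
def GuessedBy (Y : W1 → L → Set P) (d : L → Set P) : Set P :=
  fex fun k : W1 => fall fun l : L => fimp (fex fun j : W1 => SEq (Y j) (sing l))
    (fiff (meets (d l)) (meets (Y k l)))

/-- `d` is contained in a member of the family with at most `ω₁` elements. -/
def BoundedBy (Y : W1 → L → Set P) (d : L → Set P) : Set P :=
  fex fun j : W1 => fand (AtMost ℵ₁ (Y j)) (fall fun l : L => fimp (meets (d l)) (meets (Y j l)))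

end

/-- For each uncountable set `L` and each family of `ω₁` functions with finitely many arguments on
the subsets of `L` there is a family `Y` of (at most) `ω₁` subsets of `L` such that

* `Y` is closed under the functions,
* each subset of `L` which is `ω₂`-approximated by `Y` is guessed by `Y`,
* some subset of `L` which is `ω₁`-approximated by `Y`, and which is contained in a member of `Y` of
  size at most `ω₁`, is not guessed by `Y`. -/
def Omega2NotOmega1Guessing (P : Type) [Preorder P] : Set P :=
  fall fun L : Type => fall fun _ : ℵ₁ ≤ #L => fall fun F : Fns L P => fimp (FExt F)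
    (fex fun Y : W1 → L → Set P => fand (FClosed F Y)
      (fand (fall fun d : L → Set P => fimp (ApproxAt ℵ₁ Y d) (GuessedBy Y d))
        (fex fun d : L → Set P => fand (BoundedBy Y d)
          (fand (ApproxAt ℵ₀ Y d) (fnot (GuessedBy Y d))))))

end Pool.Agent.W873.Vi
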