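import Mathlib
import Pool.Agent.W873.Vi.Card
import Pool.Agent.W873.Tp.Large2

set_option autoImplicit false

/-!
# Supercompact cardinals: inaccessibility and traces
-/

namespace Pool.Agent.W873.Vi

open Set Cardinal Filter Pool.Agent.W873.Tp

variable {κ : Cardinal.{0}} {X : Type} {U : Ultrafilter (Set X)}

theorem closedS (h : NormalFine κ X U) (G : X → Set X) (hG : ∀ a, #(G a) < κ) :
    ∀ᶠ x in (U : Filter (Set X)), ∀ a ∈ x, G a ⊆ x := by
  refine h.diag fun a => ?_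
  refine (h.complete (G a) (fun b x => b.1 ∈ x) (hG a) fun b => h.fine b.1).mono fun x hx b hb => ?_
  exact hx ⟨b, hb⟩

theorem closedS₂ (h : NormalFine κ X U) (G : X → X → Set X) (hG : ∀ a b, #(G a b) < κ) :
    ∀ᶠ x in (U : Filter (Set X)), ∀ a ∈ x, ∀ b ∈ x, G a b ⊆ x :=
  h.diag fun a => closedS h (G a) (hG a)

theorem guess (h : NormalFine κ X U) {S : Type} (s : S → X) (hs : Function.Injective s)
    (pw : Set S → X) :
    ∀ᶠ x in (U : Filter (Set X)), ∀ D : Set S, ∃ E, pw E ∈ x ∧ ∀ y, s y ∈ x → (y ∈ E ↔ y ∈ D) := by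
  classical
  by_contra hc
  rw [← Ultrafilter.eventually_not] at hc
  have hc' : ∀ᶠ x in (U : Filter (Set X)), ∃ D : Set S, ∀ E, pw E ∈ x → ∃ y, s y ∈ x ∧
      ¬ (y ∈ E ↔ y ∈ D) := by
    refine hc.mono fun x hx => ?_
    push Not at hx
    obtain ⟨D, hD⟩ := hx
    refine ⟨D, fun E hE => ?_⟩
    obtain ⟨y, hy, h1⟩ := hD E hE
    refine ⟨y, hy, ?_⟩
    tauto
  let D : Set X → Set S := fun x => if h : ∃ D : Set S, ∀ E, pw E ∈ x → ∃ y, s y ∈ x ∧
    ¬ (y ∈ E ↔ y ∈ D) then h.choose else ∅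
  have hD : ∀ᶠ x in (U : Filter (Set X)), ∀ E, pw E ∈ x → ∃ y, s y ∈ x ∧ ¬ (y ∈ E ↔ y ∈ D x) := by
    refine hc'.mono fun x hx => ?_
    simp only [D]
    rw [dif_pos hx]
    exact hx.choose_spec
  let E : Set S := {y | ∀ᶠ x in (U : Filter (Set X)), y ∈ D x}
  have h1 : ∀ᶠ x in (U : Filter (Set X)), ∀ a ∈ x, ∀ y, s y = a → (y ∈ E ↔ y ∈ D x) := by
    refine h.diag fun a => ?_
    by_cases ha : ∃ y, s y = a
    · obtain ⟨y, rfl⟩ := ha
      by_cases hy : ∀ᶠ x in (U : Filter (Set X)), y ∈ D x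
      · refine hy.mono fun x hx y' hy' => ?_
        obtain rfl := hs hy'
        exact ⟨fun _ => hx, fun _ => hy⟩
      · refine (Ultrafilter.eventually_not.2 hy).mono fun x hx y' hy' => ?_
        obtain rfl := hs hy'
        exact ⟨fun h => absurd h hy, fun h => absurd h hx⟩
    · exact Eventually.of_forall fun x y hy => absurd ⟨y, hy⟩ ha
  obtain ⟨x, h2, h3, h4⟩ := (h1.and ((h.fine (pw E)).and hD)).exists
  obtain ⟨y, hy, hne⟩ := h4 E h3
  exact hne (h2 _ hy y rfl)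

theorem down_closed {K : Type} [LinearOrder K] (h : NormalFine κ X U) (k : K → X)
    (hk : Function.Injective k) (hK : ∀ a : K, #(Iio a) < κ) :
    ∀ᶠ x in (U : Filter (Set X)), ∀ a, k a ∈ x → ∀ b < a, k b ∈ x := by
  have h1 := closedS h (fun y => {z | ∃ a, k a = y ∧ ∃ b < a, k b = z}) (fun y => by
    by_cases hy : ∃ a, k a = y
    · obtain ⟨a, rfl⟩ := hy
      refine lt_of_le_of_lt ?_ (hK a)
      refine (mk_le_mk_of_subset (t := k '' Iio a) ?_).trans mk_image_le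
      rintro _ ⟨a', ha', b, hb, rfl⟩
      obtain rfl := hk ha'
      exact ⟨b, hb, rfl⟩
    · have h2 : {z | ∃ a, k a = y ∧ ∃ b < a, k b = z} = ∅ := by
        refine Set.eq_empty_iff_forall_notMem.2 ?_
        rintro z ⟨a, ha, _⟩
        exact hy ⟨a, ha⟩
      rw [h2, mk_eq_zero]
      obtain ⟨x, hx⟩ := h.small.exists
      exact lt_of_le_of_lt zero_le hx)
  exact h1.mono fun x hx a ha b hb => hx _ ha ⟨a, rfl, b, hb, rfl⟩

theorem exists_seg {x : Set (Ik κ)} (h : ∀ a ∈ x, ∀ b < a, b ∈ x) (hx : #x < κ) :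
    ∃ m, ∀ a, a ∈ x ↔ a < m := by
  have hne : ({a | a ∉ x} : Set (Ik κ)).Nonempty := by
    by_contra hcon
    rw [Set.not_nonempty_iff_eq_empty] at hcon
    have h1 : x = Set.univ := by
      ext a
      simp only [mem_univ, iff_true]
      by_contra ha
      have : a ∈ ({a | a ∉ x} : Set (Ik κ)) := ha
      rw [hcon] at this
      exact this
    rw [h1, mk_univ, mk_ord_toType] at hx
    exact lt_irrefl _ hx
  obtain ⟨m, hm, hmin⟩ := WellFounded.has_min (wellFounded_lt (α := Ik κ)) _ hne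
  refine ⟨m, fun a => ⟨fun ha => ?_, fun ha => ?_⟩⟩
  · by_contra hcon
    rcases (not_lt.1 hcon).lt_or_eq with hlt | heq
    · exact hm (h a ha m hlt)
    · exact hm (heq ▸ ha)
  · by_contra hcon
    exact hmin a hcon ha

theorem inacc (hκ : IsSupercompact κ) : κ.IsInaccessible := by
  classical
  obtain ⟨h0, hsc⟩ := hκ
  obtain ⟨U, hU⟩ := hsc (Ik κ)
  have hdown := down_closed hU (fun a : Ik κ => a) Function.injective_id mk_IioK
  refine ⟨h0, ?_, ?_⟩
  · rw [← Ordinal.cof_toType, Order.le_cof_iff]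
    intro S hS
    by_contra hcon
    rw [not_le] at hcon
    obtain ⟨x, h1, h2, h3⟩ := (hdown.and ((hU.complete S (fun s x => s.1 ∈ x) hcon
      fun s => hU.fine s.1).and hU.small)).exists
    obtain ⟨m, hm⟩ := exists_seg h1 h3
    obtain ⟨s, hs, hms⟩ := hS m
    exact absurd hms (not_le.2 ((hm s).1 (h2 ⟨s, hs⟩)))
  · intro c hc
    by_contra hcon
    rw [not_lt] at hcon
    have h1 : #(Ik κ) ≤ #(Set c.out) := by
      rw [mk_set, mk_out, mk_ord_toType]
      exact hcon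
    obtain ⟨f⟩ := h1
    have hm : ∀ x : Set (Ik κ), ∃ m : Ik κ, ((∀ a ∈ x, ∀ b < a, b ∈ x) ∧ #x < κ) →
        ∀ a, a ∈ x ↔ a < m := by
      intro x
      by_cases h : (∀ a ∈ x, ∀ b < a, b ∈ x) ∧ #x < κ
      · obtain ⟨m, hm⟩ := exists_seg h.1 h.2
        exact ⟨m, fun _ => hm⟩
      · have : Nonempty (Ik κ) := by
          rw [← mk_ne_zero_iff, mk_ord_toType]
          exact (aleph0_pos.trans h0).ne'
        exact ⟨Classical.arbitrary _, fun h' => absurd h' h⟩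
    choose m hm using hm
    let B : Set c.out := {a | ∀ᶠ x in (U : Filter (Set (Ik κ))), a ∈ f (m x)}
    have h2 : ∀ᶠ x in (U : Filter (Set (Ik κ))), ∀ a : c.out, (a ∈ f (m x) ↔ a ∈ B) := by
      refine hU.complete c.out (fun a x => (a ∈ f (m x) ↔ a ∈ B)) (by rwa [mk_out]) fun a => ?_
      by_cases ha : ∀ᶠ x in (U : Filter (Set (Ik κ))), a ∈ f (m x)
      · exact ha.mono fun x hx => ⟨fun _ => ha, fun _ => hx⟩
      · exact (Ultrafilter.eventually_not.2 ha).mono fun x hx =>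
          ⟨fun h => absurd h hx, fun h => absurd h ha⟩
    obtain ⟨x0, hx0⟩ := h2.exists
    obtain ⟨x, h3, h4, h5, h6⟩ := (h2.and (hdown.and (hU.small.and (hU.fine (m x0))))).exists
    have h7 : m x = m x0 := f.injective (Set.ext fun a => (h3 a).trans (hx0 a).symm)
    have h8 := (hm x ⟨h4, h5⟩ (m x0)).1 h6
    rw [h7] at h8
    exact lt_irrefl _ h8

/-- cofinality of the trace -/
theorem no_cofinal (hκ : κ.IsInaccessible) (h : NormalFine κ X U) (k : Ik κ → X)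
    (hk : Function.Injective k) :
    ∀ᶠ x in (U : Filter (Set X)), ∀ b, k b ∈ x → ∀ g : Iio b → Ik κ, (∀ i, k (g i) ∈ x) →
      ∃ c, k c ∈ x ∧ ∀ i, g i < c := by
  classical
  have h1 : ∀ᶠ x in (U : Filter (Set X)), ∀ a ∈ x, ∀ b, k b = a → ∀ g : Iio b → Ik κ,
      (∀ i, k (g i) ∈ x) → ∃ c, k c ∈ x ∧ ∀ i, g i < c := by
    refine h.diag fun a => ?_
    by_cases ha : ∃ b, k b = a
    · obtain ⟨b, rfl⟩ := ha
      suffices hs : ∀ᶠ x in (U : Filter (Set X)), ∀ g : Iio b → Ik κ,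
          (∀ i, k (g i) ∈ x) → ∃ c, k c ∈ x ∧ ∀ i, g i < c by
        refine hs.mono fun x hx b' hb' => ?_
        obtain rfl := hk hb'
        exact hx
      by_contra hc
      rw [← Ultrafilter.eventually_not] at hc
      have hc' : ∀ᶠ x in (U : Filter (Set X)), ∃ g : Iio b → Ik κ, (∀ i, k (g i) ∈ x) ∧
          ∀ c, k c ∈ x → ∃ i, c ≤ g i := by
        refine hc.mono fun x hx => ?_
        push Not at hx
        exact hx
      have hne : Nonempty (Ik κ) := ⟨b⟩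
      let g : Set X → Iio b → Ik κ := fun x => if h : ∃ g : Iio b → Ik κ, (∀ i, k (g i) ∈ x) ∧
        ∀ c, k c ∈ x → ∃ i, c ≤ g i then h.choose else fun _ => b
      have hg : ∀ᶠ x in (U : Filter (Set X)), (∀ i, k (g x i) ∈ x) ∧
          ∀ c, k c ∈ x → ∃ i, c ≤ g x i := by
        refine hc'.mono fun x hx => ?_
        simp only [g]
        rw [dif_pos hx]
        exact hx.choose_spec
      have h2 : ∀ i : Iio b, ∃ a, ∀ᶠ x in (U : Filter (Set X)), g x i = a := by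
        intro i
        obtain ⟨y, hy⟩ := h.const (Q := fun x y => k (g x i) = y) (by
          filter_upwards [hg] with x hx
          exact ⟨_, hx.1 i, rfl⟩)
        obtain ⟨x0, hx0⟩ := hy.exists
        exact ⟨g x0 i, hy.mono fun x hx => hk (hx.trans hx0.symm)⟩
      choose G hG using h2
      obtain ⟨c, hc⟩ := bddK hκ.isRegular (range G) (mk_range_le.trans_lt (mk_IioK b))
      obtain ⟨x, h3, h4, h5⟩ := (hg.and ((h.complete (Iio b) (fun i x => g x i = G i)
        (mk_IioK b) hG).and (h.fine (k c)))).exists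
      obtain ⟨i, hi⟩ := h3.2 c h5
      rw [h4 i] at hi
      exact absurd (hc _ ⟨i, rfl⟩) (not_lt.2 hi)
    · exact Eventually.of_forall fun x b hb => absurd ⟨b, hb⟩ ha
  exact h1.mono fun x hx b hb => hx _ hb b rfl

/-- the trace is inaccessible -/
theorem seg_inacc {m : Ik κ} (h1 : ∀ b < m, ∀ g : Iio b → Ik κ,
    (∀ i, g i < m) → ∃ c < m, ∀ i, g i < c)
    (h2 : ∀ a < m, ∃ b < m, #(Set (Iio a)) ≤ #(Iio b)) (h3 : ∃ a < m, ℵ₀ < #(Iio a)) :
    (#(Iio m)).IsInaccessible ∧ (∀ a < m, #(Iio a) < #(Iio m)) ∧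
      ∀ S : Set (Ik κ), (∀ a ∈ S, a < m) → #S < #(Iio m) → ∃ c < m, ∀ a ∈ S, a < c := by
  have h4 : ∀ a < m, #(Iio a) < #(Iio m) := by
    intro a ha
    obtain ⟨b, hb, h5⟩ := h2 a ha
    refine lt_of_lt_of_le (lt_of_lt_of_le ?_ h5) (mk_le_mk_of_subset (Iio_subset_Iio hb.le))
    rw [mk_set]
    exact cantor _
  have h5 : ∀ c < #(Iio m), ∃ a < m, #(Iio a) = c := by
    intro c hc
    obtain ⟨a, ha⟩ := exists_mk_Iio (κ := κ) (hc.trans (mk_IioK m))
    refine ⟨a, ?_, ha⟩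
    by_contra hcon
    have := mk_le_mk_of_subset (Iio_subset_Iio (not_lt.1 hcon))
    rw [ha] at this
    exact absurd hc (not_lt.2 this)
  have h6 : ∀ S : Set (Ik κ), (∀ a ∈ S, a < m) → #S < #(Iio m) → ∃ c < m, ∀ a ∈ S, a < c := by
    intro S hS hSc
    obtain ⟨b, hb, hbS⟩ := h5 _ hSc
    obtain ⟨e⟩ := Cardinal.eq.1 hbS
    obtain ⟨c, hc, h7⟩ := h1 b hb (fun i => (e i).1) fun i => hS _ (e i).2
    refine ⟨c, hc, fun a ha => ?_⟩
    have := h7 (e.symm ⟨a, ha⟩)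
    rwa [e.apply_symm_apply] at this
  refine ⟨⟨?_, ?_, ?_⟩, h4, h6⟩
  · obtain ⟨a, ha, h7⟩ := h3
    exact h7.trans (h4 a ha)
  · rw [← Ordinal.cof_toType, Order.le_cof_iff]
    intro S hS
    by_contra hcon
    rw [not_le] at hcon
    have h7 : #(Ik (#(Iio m))) = #(Iio m) := mk_ord_toType _
    obtain ⟨e⟩ := Cardinal.eq.1 h7
    have h8 : ∀ s : S, ∃ c < m, ∀ a ∈ (fun i => (e i).1) '' Iic s.1, a < c := by
      intro s
      refine h6 _ ?_ ?_
      · rintro _ ⟨i, _, rfl⟩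
        exact (e i).2
      · refine mk_image_le.trans_lt ?_
        have h9 : (Iic s.1 : Set (Ik (#(Iio m)))) = insert s.1 (Iio s.1) := by
          ext x
          simp only [mem_Iic, mem_insert_iff, mem_Iio]
          exact le_iff_eq_or_lt
        rw [h9]
        have h10 : ℵ₀ < #(Iio m) := by
          obtain ⟨a, ha, h7⟩ := h3
          exact h7.trans (h4 a ha)
        exact (mk_insert_le).trans_lt (add_lt_of_lt h10.le (mk_IioK s.1)
          (one_lt_aleph0.trans h10))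
    choose c hc1 hc2 using h8
    obtain ⟨c', hc', h9⟩ := h6 (range c) (by
      rintro _ ⟨s, rfl⟩
      exact hc1 s) (mk_range_le.trans_lt hcon)
    obtain ⟨s, hs, h10⟩ := hS (e.symm ⟨c', hc'⟩)
    have h11 := hc2 ⟨s, hs⟩ c' ⟨e.symm ⟨c', hc'⟩, h10, by simp⟩
    exact absurd (h9 _ ⟨⟨s, hs⟩, rfl⟩) (not_lt.2 h11.le)
  · intro c hc
    obtain ⟨a, ha, rfl⟩ := h5 c hc
    obtain ⟨b, hb, h7⟩ := h2 a ha
    rw [← mk_set]
    exact h7.trans_lt (h4 b hb)

end Pool.Agent.W873.Vi
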