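import Mathlib
import Pool.Agent.W873.Vi.Chain
import Pool.Agent.W873.Vi.Incl
import Pool.Agent.W873.Vi.Defs

set_option autoImplicit false
set_option linter.unusedSectionVars false

/-!
# The submodels
-/

namespace Pool.Agent.W873.Vi

open Set Cardinal Filter Pool.Agent.Helper669.Forcing Pool.Agent.W873.Gp Pool.Agent.W873.Tp

/-- the objects -/
inductive Lam (κ : Cardinal.{0}) (L : Type) : Type
  | k (a : Ik κ)
  | l (x : L)
  | a (s : Set L)
  | nm (τ : L → Set (Pc (Ik κ)))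
  | cd (r : Pc (Ik κ))
  | lp (x : L × Pc (Ik κ))
  | sg (s : Set (L × Pc (Ik κ)))
  | tl (l : List (L → Set (Pc (Ik κ))))

/-- the traces of a submodel -/
structure Model {κ : Cardinal.{0}} {L : Type} (F : Fns L (Pc (Ik κ))) (e : W → L) where
  m : Ik κ
  X : Set L
  Nn : Set (L → Set (Pc (Ik κ)))
  inacc : (#(Iio m)).IsInaccessible
  cnt : ∀ a < m, #(NmT (Ik κ) a) < #(Iio m)
  small : #Nn < κ
  smallX : #X < κ
  h3 : ∀ σ : L → Set (Pc (Ik κ)), ∃ τ ∈ Nn, ∀ l ∈ X, ∀ s, rm m s = s → (s ∈ τ l ↔ s ∈ σ l)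
  h4 : ∀ τ ∈ Nn, ∀ l ∈ X, ∀ r, r ∈ meets (τ l) → r ∈ meets {s | s ∈ τ l ∧ rm m s = s}
  chk : ∀ S ⊆ X, #S < #(Iio m) → check S ∈ Nn
  dec : ∀ τ ∈ Nn, ∀ l, ∀ r, r ∈ SEq τ (sing l) → l ∈ X
  sg : ∀ l ∈ X, sing l ∈ Nn
  int : ∀ σ ∈ Nn, ∀ τ ∈ Nn, inter σ τ ∈ Nn
  emp : (fun _ => ∅) ∈ Nn
  ran : ∀ i, e i ∈ X
  fn : ∀ i (l : List (L → Set (Pc (Ik κ)))), (∀ τ ∈ l, τ ∈ Nn) → F i l.length l.get ∈ Nn

section

variable {κ : Cardinal.{0}} {L : Type}

open Classical in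
/-- the closure functions -/
noncomputable def Gc (F : Fns L (Pc (Ik κ))) (nx : Ik κ → Ik κ) (ij : Set L → Ik κ → L)
    (sm : Set (Pc (Ik κ)) → Set (Pc (Ik κ))) : Lam κ L → Lam κ L → Set (Lam κ L)
  | .k a, _ => (Lam.cd '' {c | rm a c = c}) ∪ {.k (nx a)}
  | .cd r, _ => Lam.k '' supp r
  | .a s, .k b => {.l (ij s b)}
  | .a s, _ => {.nm (check s)} ∪ (if #s < κ then Lam.l '' s else ∅)
  | .nm τ, .l x => Lam.cd '' sm (τ x)
  | .nm τ, .tl l => {.tl (τ :: l)}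
  | .nm τ, .nm σ => {.nm (inter τ σ)} ∪ Lam.l '' {l | ∃ r, r ∈ SEq τ (sing l)}
  | .l x, .cd r => {.lp (x, r)}
  | .l x, _ => {.nm (sing x)}
  | .sg E, _ => {.nm fun l => {s | (l, s) ∈ E}}
  | .tl l, _ => {z | ∃ i, z = .nm (F i l.length l.get)}
  | _, _ => ∅

theorem lt_Gc (hκ : κ.IsInaccessible) (F : Fns L (Pc (Ik κ))) (nx : Ik κ → Ik κ)
    (ij : Set L → Ik κ → L) (sm : Set (Pc (Ik κ)) → Set (Pc (Ik κ))) (hsm : ∀ N, #(sm N) < κ)
    (a b : Lam κ L) : #(Gc F nx ij sm a b) < κ := by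
  have h1 : ∀ z : Lam κ L, #({z} : Set (Lam κ L)) < κ := fun z => by
    rw [mk_singleton]
    exact one_lt_aleph0.trans hκ.aleph0_lt
  have h0 : #(∅ : Set (Lam κ L)) < κ := by
    rw [mk_eq_zero]
    exact aleph0_pos.trans hκ.aleph0_lt
  have hu : ∀ A B : Set (Lam κ L), #A < κ → #B < κ → #(A ∪ B : Set (Lam κ L)) < κ :=
    fun A B hA hB => (mk_union_le A B).trans_lt (add_lt_of_lt hκ.aleph0_lt.le hA hB)
  have hL : ∀ s : Set L, #({.nm (check s)} ∪ (if #s < κ then Lam.l '' s else ∅) :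
      Set (Lam κ L)) < κ := by
    intro s
    refine hu _ _ (h1 _) ?_
    split_ifs with h
    · exact mk_image_le.trans_lt h
    · exact h0
  have htl : ∀ l : List (L → Set (Pc (Ik κ))), #{z : Lam κ L | ∃ i, z = .nm (F i l.length l.get)} < κ := by
    intro l
    refine lt_of_le_of_lt ?_ (lt_W hκ)
    refine (mk_le_mk_of_subset (t := range fun i : W => Lam.nm (F i l.length l.get)) ?_).trans
      mk_range_le
    rintro _ ⟨i, rfl⟩
    exact ⟨i, rfl⟩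
  have hk : ∀ a : Ik κ, #((Lam.cd '' {c | rm a c = c}) ∪ {.k (nx a)} : Set (Lam κ L)) < κ :=
    fun a => hu _ _ (mk_image_le.trans_lt (lt_rm hκ a)) (h1 _)
  have hcd : ∀ r : Pc (Ik κ), #(Lam.k '' supp r : Set (Lam κ L)) < κ := fun r =>
    ((supp_cnt r).image _).le_aleph0.trans_lt hκ.aleph0_lt
  rcases a with a | x | s | τ | r | x | E | l <;> rcases b with b | y | t | σ | q | y | E' | l' <;>
    first
    | exact h0
    | exact h1 _
    | exact hk _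
    | exact hcd _
    | exact hL _
    | exact htl _
    | exact mk_image_le.trans_lt (hsm _)
    | exact hu _ _ (h1 _) (mk_image_le.trans_lt (lt_values hκ _))

theorem exists_model (hs : IsSupercompact κ) (F : Fns L (Pc (Ik κ))) (e : W → L) :
    Nonempty (Model F e) := by
  classical
  have hκ := inacc hs
  obtain ⟨U, hU⟩ := hs.2 (Lam κ L)
  obtain ⟨w0, _⟩ := W_bdd ∅ countable_empty
  -- the functions
  have hnx : ∀ a : Ik κ, ∃ b : Ik κ, #(Set (Iio a)) ≤ #(Iio b) ∧ #(NmT (Ik κ) a) ≤ #(Iio b) := by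
    intro a
    obtain ⟨b, hb⟩ := exists_mk_Iio (κ := κ) (μ := max (#(Set (Iio a))) (#(NmT (Ik κ) a)))
      (max_lt (lt_set hκ (mk_IioK a)) (lt_NmT hκ a))
    exact ⟨b, by rw [hb]; exact le_max_left _ _, by rw [hb]; exact le_max_right _ _⟩
  choose nx hnx1 hnx2 using hnx
  have hij : ∀ s : Set L, ∃ f : Ik κ → L, κ ≤ #s → Function.Injective f ∧ ∀ b, f b ∈ s := by
    intro s
    by_cases h : κ ≤ #s
    · have h1 : #(Ik κ) ≤ #s := by
        rw [mk_ord_toType]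
        exact h
      obtain ⟨g⟩ := h1
      exact ⟨fun b => (g b).1, fun _ => ⟨fun b b' hb => g.injective (Subtype.ext hb),
        fun b => (g b).2⟩⟩
    · exact ⟨fun _ => e w0, fun h' => absurd h' h⟩
  choose ij hij using hij
  choose sm hsm1 hsm2 hsm3 using exists_small hκ
  obtain ⟨a0, ha0⟩ := exists_mk_Iio (κ := κ) (μ := ℵ₁) (aleph1_lt hκ)
  have hkinj : Function.Injective (Lam.k : Ik κ → Lam κ L) := fun a b h => by simpa using h
  obtain ⟨x, E1, E2, E3, E4, E5, E6, E7, E8, E9, E10⟩ :=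
    ((closedS₂ hU (Gc F nx ij sm) (lt_Gc hκ F nx ij sm hsm2)).and
    ((guess hU (Lam.lp : L × Pc (Ik κ) → Lam κ L) (fun a b h => by simpa using h) Lam.sg).and
    ((guess hU (Lam.l : L → Lam κ L) (fun a b h => by simpa using h) Lam.a).and
    ((down_closed hU Lam.k hkinj mk_IioK).and
    ((no_cofinal hκ hU Lam.k hkinj).and
    (hU.small.and
    ((hU.fine (Lam.nm fun _ => ∅)).and
    ((hU.fine (Lam.tl [])).and
    ((hU.complete W (fun i x => Lam.l (e i) ∈ x) (lt_W hκ) fun i => hU.fine _).and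
    (hU.fine (Lam.k a0))))))))))).exists
  have hxk : #{a : Ik κ | Lam.k a ∈ x} < κ := by
    refine lt_of_le_of_lt ?_ E6
    exact mk_le_of_injective (f := fun a : {a : Ik κ | Lam.k a ∈ x} => (⟨Lam.k a.1, a.2⟩ : x))
      fun a b h => Subtype.ext (hkinj (congrArg Subtype.val h))
  obtain ⟨m, hm⟩ := exists_seg (x := {a : Ik κ | Lam.k a ∈ x}) (fun a ha b hb => E4 a ha b hb) hxk
  have hm' : ∀ a, Lam.k a ∈ x ↔ a < m := hm
  have hnxm : ∀ a < m, nx a < m := by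
    intro a ha
    exact (hm' _).1 (E1 _ ((hm' a).2 ha) _ ((hm' a).2 ha) (Or.inr rfl))
  obtain ⟨hin, hlt, hbd⟩ := seg_inacc (m := m) (fun b hb g hg => by
    obtain ⟨c, hc, h1⟩ := E5 b ((hm' b).2 hb) g fun i => (hm' _).2 (hg i)
    exact ⟨c, (hm' c).1 hc, h1⟩) (fun a ha => ⟨nx a, hnxm a ha, hnx1 a⟩)
    ⟨a0, (hm' a0).1 E10, by rw [ha0]; exact aleph0_lt_aleph_one⟩
  have hcd1 : ∀ s, rm m s = s → Lam.cd s ∈ x := by
    intro s hs
    have h1 := rm_eq_iff.1 hs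
    obtain ⟨c, hc, h2⟩ := hbd (supp s) h1 ((supp_cnt s).le_aleph0.trans_lt hin.aleph0_lt)
    exact E1 _ ((hm' c).2 hc) _ ((hm' c).2 hc) (Or.inl ⟨s, rm_eq_iff.2 h2, rfl⟩)
  have hcd2 : ∀ s, Lam.cd s ∈ x → rm m s = s := by
    intro s hs
    refine rm_eq_iff.2 fun a ha => (hm' a).1 ?_
    exact E1 _ hs _ hs ⟨a, ha, rfl⟩
  refine ⟨⟨m, {l | Lam.l l ∈ x}, {τ | Lam.nm τ ∈ x}, hin, fun a ha => (hnx2 a).trans_lt
    (hlt _ (hnxm a ha)), ?_, ?_, ?_, ?_, ?_, ?_, ?_, ?_, E7, E9, ?_⟩⟩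
  · refine lt_of_le_of_lt ?_ E6
    exact mk_le_of_injective (f := fun a : {a : L → Set (Pc (Ik κ)) | Lam.nm a ∈ x} =>
      (⟨Lam.nm a.1, a.2⟩ : x)) fun a b h => Subtype.ext (by simpa using congrArg Subtype.val h)
  · refine lt_of_le_of_lt ?_ E6
    exact mk_le_of_injective (f := fun a : {a : L | Lam.l a ∈ x} =>
      (⟨Lam.l a.1, a.2⟩ : x)) fun a b h => Subtype.ext (by simpa using congrArg Subtype.val h)
  · intro σ
    obtain ⟨E, hE, h1⟩ := E2 {y | y.2 ∈ σ y.1}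
    refine ⟨fun l => {s | (l, s) ∈ E}, E1 _ hE _ hE rfl, fun l hl s hs => ?_⟩
    exact h1 (l, s) (E1 _ hl _ (hcd1 s hs) rfl)
  · intro τ hτ l hl r hr
    intro q hq
    obtain ⟨q', hq', s, hs, hqs⟩ := hsm3 (τ l) r hr q hq
    exact ⟨q', hq', s, ⟨hsm1 _ hs, hcd2 s (E1 _ hτ _ hl ⟨s, hs, rfl⟩)⟩, hqs⟩
  · intro S hS hSc
    obtain ⟨E, hE, h1⟩ := E3 S
    have hES : E = S := by
      by_cases hc : #E < κ
      · have h2 : ∀ l ∈ E, Lam.l l ∈ x := by
          intro l hl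
          refine E1 _ hE _ hE (Or.inr ?_)
          rw [if_pos hc]
          exact ⟨l, hl, rfl⟩
        ext l
        constructor
        · exact fun hl => (h1 l (h2 l hl)).1 hl
        · exact fun hl => (h1 l (hS hl)).2 hl
      · rw [not_lt] at hc
        obtain ⟨h2, h3⟩ := hij E hc
        exfalso
        refine absurd (mk_le_of_injective (f := fun b : Iio m => (⟨ij E b.1, ?_⟩ : S)) ?_)
          (not_le.2 hSc)
        · exact (h1 _ (E1 _ hE _ ((hm' b.1).2 b.2) rfl)).1 (h3 _)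
        · intro b b' hb
          exact Subtype.ext (h2 (congrArg Subtype.val hb))
    rw [← hES]
    exact E1 _ hE _ hE (Or.inl rfl)
  · intro τ hτ l r hr
    exact E1 _ hτ _ hτ (Or.inr ⟨l, ⟨r, hr⟩, rfl⟩)
  · intro l hl
    exact E1 _ hl _ hl rfl
  · intro σ hσ τ hτ
    exact E1 _ hσ _ hτ (Or.inl rfl)
  · intro i l hl
    have h1 : Lam.tl l ∈ x := by
      induction l with
      | nil => exact E8
      | cons τ l ih =>
        exact E1 _ (hl τ (by simp)) _ (ih fun σ hσ => hl σ (by simp [hσ])) rfl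
    exact E1 _ h1 _ h1 ⟨i, rfl⟩

end

end Pool.Agent.W873.Vi
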