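import Mathlib
import Pool.Agent.W873.Vi.Mod

set_option autoImplicit false
set_option linter.unusedSectionVars false

/-!
# The final argument
-/

namespace Pool.Agent.W873.Vi

open Set Cardinal Filter Pool.Agent.Helper669.Forcing Pool.Agent.W873.Gp Pool.Agent.W873.Tp

section

variable {κ : Cardinal.{0}} {L : Type}

theorem AtMost_congr {P : Type} [Preorder P] {δ : Cardinal.{0}} {x y : L → Set P} {r : P}
    (h : r ∈ AtMost δ x) (hxy : r ∈ SEq y x) : r ∈ AtMost δ y := by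
  intro q hq hcon
  refine h q hq ?_
  intro g q' hq' hg
  refine hcon g q' hq' ⟨hg.1, fun l => mem_fimp.2 fun s hs hsl => ?_⟩
  exact mem_fimp.1 (hg.2 l) s hs ((SEq_iff.1 hxy l s (hs.trans (hq'.trans hq))).1 hsl)

theorem atMost_aleph1 (S : Set L) (hS : #S < κ) (r : Pc (Ik κ)) : r ∈ AtMost ℵ₁ (check S) := by
  obtain ⟨a, ha⟩ := exists_mk_Iio (κ := κ) hS
  obtain ⟨f⟩ := Cardinal.eq.1 ha
  refine mem_fex_of_mem (fun i l => {r | ∃ b, ∃ h : b < a, r ∈ cl a i b ∧ (f ⟨b, h⟩).1 = l})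
    (down_fand (down_fall fun _ => down_fall fun _ => down_fall fun _ => down_fimp _ _)
    (down_fall fun _ => down_fimp _ _)) ⟨fun i l l' => ?_, fun l => ?_⟩
  · refine mem_fimp.2 fun q _ hq => ⟨q, le_rfl, ?_⟩
    obtain ⟨q1, hq1, s, ⟨b, hb, hs, rfl⟩, hqs⟩ := hq.1 q le_rfl
    obtain ⟨q2, hq2, s', ⟨b', hb', hs', rfl⟩, hqs'⟩ := hq.2 q1 hq1
    obtain rfl := cl_unique (down_cl _ hs _ (hq2.trans hqs)) (down_cl _ hs' _ hqs')
    rfl
  · refine mem_fimp.2 fun q _ hq => ⟨q, le_rfl, mem_fex.2 fun q1 hq1 => ?_⟩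
    have hl : l ∈ S := mem_check.1 hq
    obtain ⟨q2, hq2, i, h⟩ := cl_dense q1 (le_of_lt (f.symm ⟨l, hl⟩).2)
    exact ⟨q2, hq2, i, meets_of_mem ⟨_, (f.symm ⟨l, hl⟩).2, h, by simp⟩⟩

variable {F : Fns L (Pc (Ik κ))} {e : W → L}

/-- the enumeration of the names in the model -/
theorem exists_enum (M : Model F e) : ∃ Y : W → L → Set (Pc (Ik κ)),
    (∀ r, ∀ i, ∃ r' ≤ r, ∃ τ ∈ M.Nn, r' ∈ SEq (Y i) τ) ∧
      ∀ τ ∈ M.Nn, ∀ r, ∃ r' ≤ r, ∃ i, r' ∈ SEq (Y i) τ := by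
  obtain ⟨a, ha⟩ := exists_mk_Iio (κ := κ) M.small
  obtain ⟨f⟩ := Cardinal.eq.1 ha
  have key : ∀ r i b (hb : b < a), r ∈ cl a i b → r ∈ SEq (fun l => {r | ∃ b, ∃ h : b < a,
      r ∈ cl a i b ∧ r ∈ meets ((f ⟨b, h⟩).1 l)}) (f ⟨b, hb⟩).1 := by
    intro r i b hb hr
    rw [SEq_iff]
    intro l q hq
    constructor
    · intro h
      refine meets_of_dense fun q1 hq1 => ?_
      obtain ⟨q2, hq2, s, ⟨b', hb', hs, hs'⟩, hqs⟩ := h q1 hq1
      obtain rfl := cl_unique (down_cl _ hs _ hqs)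
        (down_cl _ hr _ ((hq2.trans hq1).trans hq))
      exact ⟨q2, hq2, down_meets _ _ hs' _ hqs⟩
    · intro h
      exact meets_of_mem ⟨b, hb, down_cl _ hr _ hq, h⟩
  refine ⟨fun i l => {r | ∃ b, ∃ h : b < a, r ∈ cl a i b ∧ r ∈ meets ((f ⟨b, h⟩).1 l)},
    fun r i => ?_, fun τ hτ r => ?_⟩
  · by_cases h : ∃ r' ≤ r, ∃ b, b < a ∧ r' ∈ cl a i b
    · obtain ⟨r', hr', b, hb, h1⟩ := h
      exact ⟨r', hr', (f ⟨b, hb⟩).1, (f ⟨b, hb⟩).2, key r' i b hb h1⟩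
    · refine ⟨r, le_rfl, _, M.emp, SEq_iff.2 fun l q hq => ⟨fun h1 => ?_, fun h1 => ?_⟩⟩
      · obtain ⟨q1, hq1, s, ⟨b, hb, hs, _⟩, hqs⟩ := h1 q le_rfl
        exact absurd ⟨q1, hq1.trans hq, b, hb, down_cl _ hs _ hqs⟩ h
      · obtain ⟨_, _, s, hs, _⟩ := h1 q le_rfl
        exact absurd hs (by simp)
  · obtain ⟨r', hr', i, h⟩ := cl_dense r (le_of_lt (f.symm ⟨τ, hτ⟩).2)
    refine ⟨r', hr', i, ?_⟩
    have h1 := key r' i _ (f.symm ⟨τ, hτ⟩).2 h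
    have h2 : (f ⟨(f.symm ⟨τ, hτ⟩).1, (f.symm ⟨τ, hτ⟩).2⟩).1 = τ := by
      change (f (f.symm ⟨τ, hτ⟩)).1 = τ
      rw [f.apply_symm_apply]
    rw [h2] at h1
    exact h1

theorem model_fn (M : Model F e) (i : W) (n : ℕ) (t : Fin n → L → Set (Pc (Ik κ)))
    (ht : ∀ k, t k ∈ M.Nn) : F i n t ∈ M.Nn := by
  obtain ⟨l, h, hl⟩ : ∃ l : List (L → Set (Pc (Ik κ))), ∃ h : l.length = n,
      t = fun k => l.get (k.cast h.symm) :=
    ⟨List.ofFn t, List.length_ofFn, funext fun k => by simp⟩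
  subst h
  have h1 : t = l.get := by
    rw [hl]
    rfl
  rw [h1]
  refine M.fn i l fun τ hτ => ?_
  obtain ⟨k, rfl⟩ := List.get_of_mem hτ
  rw [← h1]
  exact ht k

theorem model_h1 (M : Model F e) : ∀ τ ∈ M.Nn, ∀ l ∈ M.X, ∀ r, r ∈ meets (τ l) →
    rm M.m r ∈ meets (τ l) := by
  intro τ hτ l hl r hr
  have h5 := res_mem_meets (cl_m M.m) (fun s hs => hs.2) (M.h4 τ hτ l hl r hr)
  intro q hq
  obtain ⟨q', hq', s, hs, hqs⟩ := h5 q hq
  exact ⟨q', hq', s, hs.1, hqs⟩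

theorem forced (hs : IsSupercompact κ) (p : Pc (Ik κ)) :
    p ∈ Omega2NotOmega1Guessing (Pc (Ik κ)) := by
  classical
  intro L hL F
  refine mem_fimp.2 fun q _ hF => ⟨q, le_rfl, ?_⟩
  have hL' : #W ≤ #L := by
    rw [mk_ord_toType]
    exact hL
  obtain ⟨e⟩ := hL'
  obtain ⟨M⟩ := exists_model hs F e
  obtain ⟨Y, hY1, hY2⟩ := exists_enum M
  have hdown1 : ∀ d : L → Set (Pc (Ik κ)), Down (ApproxAt ℵ₁ Y d) := fun d =>
    down_fall fun _ => down_fimp _ _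
  have hdown0 : ∀ d : L → Set (Pc (Ik κ)), Down (ApproxAt ℵ₀ Y d) := fun d =>
    down_fall fun _ => down_fimp _ _
  refine mem_fex_of_mem Y (down_fand (down_fall fun _ => down_fall fun _ => down_fall fun _ =>
    down_fimp _ _) (down_fand (down_fall fun _ => down_fimp _ _) (down_fex _)))
    ⟨fun i n s => mem_fimp.2 fun r hr hrs => ?_, fun d => mem_fimp.2 fun r hr hap => ?_, ?_⟩
  · -- closure
    have key : ∀ S : Finset (Fin n), ∃ r' ≤ r, ∃ t : Fin n → L → Set (Pc (Ik κ)),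
        (∀ k, t k ∈ M.Nn) ∧ ∀ k ∈ S, r' ∈ SEq (s k) (t k) := by
      intro S
      induction S using Finset.induction_on with
      | empty => exact ⟨r, le_rfl, fun _ _ => ∅, fun _ => M.emp, fun k hk =>
          absurd hk (Finset.notMem_empty k)⟩
      | insert k S _ ih =>
        obtain ⟨r', hr', t, ht, h1⟩ := ih
        obtain ⟨r2, hr2, j, h2⟩ := mem_fex.1 (hrs k) r' hr'
        obtain ⟨r3, hr3, τ, hτ, h3⟩ := hY1 r2 j
        refine ⟨r3, (hr3.trans hr2).trans hr', Function.update t k τ, fun k' => ?_,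
          fun k' hk' => ?_⟩
        · by_cases h : k' = k
          · subst h
            rw [Function.update_self]
            exact hτ
          · rw [Function.update_of_ne h]
            exact ht k'
        · by_cases h : k' = k
          · subst h
            rw [Function.update_self]
            exact SEq_trans (down_SEq _ h2 _ hr3) h3
          · rw [Function.update_of_ne h]
            exact down_SEq _ (h1 k' (Finset.mem_of_mem_insert_of_ne hk' h)) _ (hr3.trans hr2)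
    obtain ⟨r1, hr1, t, ht, h1⟩ := key Finset.univ
    obtain ⟨r2, hr2, h2⟩ := mem_fimp.1 (hF i n s t) r1 (hr1.trans hr)
      fun k => h1 k (Finset.mem_univ k)
    obtain ⟨r3, hr3, j, h3⟩ := hY2 _ (model_fn M i n t ht) r2
    exact ⟨r3, (hr3.trans hr2).trans hr1, mem_fex_of_mem j down_SEq
      (SEq_trans (down_SEq _ h2 _ hr3) (SEq_symm h3))⟩
  · -- guessing
    have h2 : ∀ S ⊆ M.X, #S < #(Iio M.m) → ∀ r1 ≤ r, ∃ r' ≤ r1, ∃ τ ∈ M.Nn,
        r' ∈ Gp.EqOn d τ S := by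
      intro S hS hSc r1 hr1
      obtain ⟨r2, hr2, j, h3⟩ := hY2 _ (M.chk S hS hSc) r1
      have hSκ : #S < κ := hSc.trans (mk_IioK M.m)
      obtain ⟨r3, hr3, h4⟩ := mem_fimp.1 (hap j) r2 (hr2.trans hr1)
        (AtMost_congr (atMost_aleph1 S hSκ r2) h3)
      obtain ⟨r4, hr4, k, h5⟩ := mem_fex.1 h4 r3 le_rfl
      obtain ⟨r5, hr5, τ, hτ, h6⟩ := hY1 r4 k
      refine ⟨r5, ((hr5.trans hr4).trans hr3).trans hr2, τ, hτ, fun l hl q' hq' => ?_⟩
      have h7 : q' ∈ meets (Y j l) := (SEq_iff.1 h3 l q' (((hq'.trans hr5).trans hr4).trans hr3)).2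
        (mem_check.2 hl)
      have h8 := SEq_iff.1 h5 l q' (hq'.trans hr5)
      rw [Gp.mem_inter] at h8
      rw [← SEq_iff.1 h6 l q' hq', ← h8]
      exact ⟨fun h => ⟨h, h7⟩, fun h => h.1⟩
    obtain ⟨r1, hr1, τ, hτ, h3⟩ := approx M.inacc M.cnt M.h3 M.h4 h2
    obtain ⟨r2, hr2, k, h4⟩ := hY2 τ hτ r1
    refine ⟨r2, hr2.trans hr1, mem_fex_of_mem k (down_fall fun _ => down_fimp _ _) fun l =>
      mem_fimp.2 fun q1 hq1 h5 => ⟨q1, le_rfl, ?_⟩⟩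
    obtain ⟨q2, hq2, j, h6⟩ := mem_fex.1 h5 q1 le_rfl
    obtain ⟨q3, hq3, τ', hτ', h7⟩ := hY1 q2 j
    have hl : l ∈ M.X := M.dec τ' hτ' l q3 (SEq_trans (SEq_symm h7) (down_SEq _ h6 _ hq3))
    refine mem_fiff_meets.2 fun q' hq' => ?_
    rw [h3 l hl q' ((hq'.trans hq1).trans hr2), SEq_iff.1 h4 l q' (hq'.trans hq1)]
  · -- not guessing
    have hran : range e ⊆ M.X := by
      rintro _ ⟨i, rfl⟩
      exact M.ran i
    have hfr : ∀ l, ∀ q' : Pc (Ik κ), q' ∈ meets (fresh M.m e l) → l ∈ range e := by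
      intro l q' h
      obtain ⟨_, _, s, ⟨i, hi, _⟩, _⟩ := h q' le_rfl
      exact ⟨i, hi⟩
    have hec : #(range e) < #(Iio M.m) := by
      refine mk_range_le.trans_lt ?_
      rw [mk_ord_toType]
      exact aleph1_lt M.inacc
    refine mem_fex_of_mem (fresh M.m e) (down_fand (down_fex _) (down_fand (hdown0 _)
      (down_fnot _))) ⟨?_, ?_, ?_⟩
    · refine mem_fex.2 fun q1 _ => ?_
      obtain ⟨q2, hq2, j, h1⟩ := hY2 _ (M.chk _ hran hec) q1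
      refine ⟨q2, hq2, j, AtMost_congr (atMost_aleph1 _ (hec.trans (mk_IioK M.m)) q2) h1,
        fun l => mem_fimp.2 fun q3 hq3 h2 => ⟨q3, le_rfl, ?_⟩⟩
      exact (SEq_iff.1 h1 l q3 hq3).2 (mem_check.2 (hfr l q3 h2))
    · intro j
      refine mem_fimp.2 fun q1 _ h1 => ?_
      obtain ⟨q2, hq2, τ, hτ, h2⟩ := hY1 q1 j
      obtain ⟨q3, hq3, g, hg⟩ := mem_fex.1 h1 q2 hq2
      have hKc : Countable (Gp.Kt ℵ₀) := mk_le_aleph0_iff.1 (mk_ord_toType _).le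
      have hKn : Nonempty (Gp.Kt ℵ₀) := by
        rw [← mk_ne_zero_iff, mk_ord_toType]
        exact aleph0_ne_zero
      obtain ⟨eN, heN⟩ := exists_surjective_nat (Gp.Kt ℵ₀)
      obtain ⟨q4, hq4, C, hC, h3⟩ := countable_cover (fun n l => g (eN n) l) (r := q3) (by
        intro k z z' q' hq' hz hz'
        obtain ⟨_, _, h⟩ := mem_fimp.1 (hg.1 (eN k) z z') q' hq' ⟨hz, hz'⟩
        exact h)
      obtain ⟨q5, hq5, S, hS, hSc, h4⟩ := fresh_approx (r := q4) M.m e.injective hC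
      have hcS : check S ∈ M.Nn := M.chk S (hS.trans hran)
        (hSc.le_aleph0.trans_lt M.inacc.aleph0_lt)
      obtain ⟨q6, hq6, k, h5⟩ := hY2 _ (M.int _ hcS _ hτ) q5
      refine ⟨q6, (((hq6.trans hq5).trans hq4).trans hq3).trans hq2, mem_fex_of_mem k down_SEq
        (SEq_iff.2 fun l q' hq' => ?_)⟩
      have hq5' : q' ≤ q5 := hq'.trans hq6
      have hq3' : q' ≤ q3 := (hq5'.trans hq5).trans hq4
      have h6 := SEq_iff.1 h2 l q' (hq3'.trans hq3)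
      rw [Gp.mem_inter, SEq_iff.1 h5 l q' hq', Gp.mem_inter, mem_check, h6]
      have h7 : q' ∈ meets (τ l) → l ∈ C := by
        intro h8
        obtain ⟨q7, hq7, h9⟩ := mem_fimp.1 (hg.2 l) q' hq3' (h6.2 h8)
        obtain ⟨q8, hq8, i, h10⟩ := mem_fex.1 h9 q7 le_rfl
        obtain ⟨n, rfl⟩ := heN i
        exact h3 n l q8 (((hq8.trans hq7).trans hq5').trans hq5) h10
      constructor
      · rintro ⟨h8, h9⟩
        exact ⟨(h4 l (h7 h9) q' hq5').1 h8, h9⟩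
      · rintro ⟨h8, h9⟩
        exact ⟨(h4 l (h7 h9) q' hq5').2 h8, h9⟩
    · intro q1 _ h1
      obtain ⟨q2, hq2, k, h2⟩ := mem_fex.1 h1 q1 le_rfl
      obtain ⟨q3, hq3, τ, hτ, h3⟩ := hY1 q2 k
      refine fresh_not_guessed (m := M.m) e.injective
        (fun i r hr => model_h1 M τ hτ _ (M.ran i) r hr) (r := q3) fun i => ?_
      refine EqOn_of_dense fun q4 hq4 => ?_
      obtain ⟨q5, hq5, h4⟩ := mem_fimp.1 (h2 (e i)) q4 (hq4.trans hq3) (mem_fex.2 fun q' _ => by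
        obtain ⟨q6, hq6, j, h5⟩ := hY2 _ (M.sg _ (M.ran i)) q'
        exact ⟨q6, hq6, j, h5⟩)
      refine ⟨q5, hq5, ?_⟩
      rintro _ rfl q' hq'
      rw [mem_fiff_meets.1 h4 q' hq', SEq_iff.1 h3 _ q' ((hq'.trans hq5).trans hq4)]

end

end Pool.Agent.W873.Vi
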