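import Mathlib
import Pool.Agent.W873.Vi.Final

set_option autoImplicit false
set_option linter.unusedSectionVars false

/-!
# Guessing models which are not guessing for all smaller parameters

Definitions for MP_e276f9_lc. The names for the subsets of `L` and the definitions of `FExt`,
`FClosed`, `ApproxAt`, `GuessedBy` and `BoundedBy` are the ones of `Pool.Agent.W873.Vi.Defs`.
-/

namespace Pool.Agent.W873.Vi

open Set Cardinal Pool.Agent.Helper669.Forcing Pool.Agent.W873.Gp Pool.Agent.W873.Tp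

section

variable {P : Type} [Preorder P] {L : Type}

/-- The set named by `x` has less than `γ` elements: for some ordinal `i < γ` there is a partial
function from `i` onto it. -/
def FewerThan (γ : Cardinal.{0}) (x : L → Set P) : Set P :=
  fex fun i : Kt γ => fex fun g : Iio i → L → Set P =>
    fand (fall fun k : Iio i => fall fun l : L => fall fun l' : L =>
      fimp (fand (meets (g k l)) (meets (g k l'))) (fground (l = l')))
    (fall fun l : L => fimp (meets (x l)) (fex fun k : Iio i => meets (g k l)))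

/-- `d` is `γ`-approximated by the family: `d ∩ a` is in the family for all `a` in the family with
less than `γ` elements. -/
def ApproxBelow (γ : Cardinal.{0}) (Y : W1 → L → Set P) (d : L → Set P) : Set P :=
  fall fun j : W1 => fimp (FewerThan γ (Y j)) (fex fun k : W1 => SEq (inter d (Y j)) (Y k))

/-- The family is not `γ`-guessing: some `d` which is contained in a member of the family with at
most `ω₁` elements and which is `γ`-approximated is not guessed. -/
def NotGuessing (γ : Cardinal.{0}) (Y : W1 → L → Set P) : Set P :=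
  fex fun d : L → Set P => fand (BoundedBy Y d)
    (fand (ApproxBelow γ Y d) (fnot (GuessedBy Y d)))

end

/-- For each uncountable set `L` and each family of `ω₁` functions with finitely many arguments on
the subsets of `L` there is a family `Y` of (at most) `ω₁` subsets of `L` such that

* `Y` is closed under the functions,
* each subset of `L` which is `ω₂`-approximated by `Y` is guessed by `Y`,
* `Y` is not `γ`-guessing for any cardinal `γ ≤ ω₁`. -/
def GuessingOnlyAtOmega2 (P : Type) [Preorder P] : Set P :=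
  fall fun L : Type => fall fun _ : ℵ₁ ≤ #L => fall fun F : Fns L P => fimp (FExt F)
    (fex fun Y : W1 → L → Set P => fand (FClosed F Y)
      (fand (fall fun d : L → Set P => fimp (ApproxAt ℵ₁ Y d) (GuessedBy Y d))
        (fall fun γ : Cardinal.{0} => fall fun _ : γ ≤ ℵ₁ => NotGuessing γ Y)))

section

variable {P : Type} [Preorder P] {L : Type}

theorem fimp_mono {φ ψ ψ' : Set P} (h : ψ ⊆ ψ') : fimp φ ψ ⊆ fimp φ ψ' := by
  intro p hp
  rw [mem_fimp] at hp ⊢
  intro q hq hφ
  obtain ⟨r, hr, h1⟩ := hp q hq hφ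
  exact ⟨r, hr, h h1⟩

theorem fimp_anti {φ φ' ψ : Set P} (h : φ' ⊆ φ) : fimp φ ψ ⊆ fimp φ' ψ := by
  intro p hp
  rw [mem_fimp] at hp ⊢
  exact fun q hq hφ => hp q hq (h hφ)

theorem fex_mono {ι : Sort*} {φ ψ : ι → Set P} (h : ∀ i, φ i ⊆ ψ i) : fex φ ⊆ fex ψ := by
  intro p hp
  rw [mem_fex] at hp ⊢
  intro q hq
  obtain ⟨r, hr, i, h1⟩ := hp q hq
  exact ⟨r, hr, i, h i h1⟩

theorem fex_mono_index {ι ι' : Sort*} {φ : ι → Set P} {ψ : ι' → Set P} (h : ∀ i, ∃ j, φ i ⊆ ψ j) :
    fex φ ⊆ fex ψ := by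
  intro p hp
  rw [mem_fex] at hp ⊢
  intro q hq
  obtain ⟨r, hr, i, h1⟩ := hp q hq
  obtain ⟨j, hj⟩ := h i
  exact ⟨r, hr, j, hj h1⟩

theorem fewerThan_atMost {γ : Cardinal.{0}} (hγ : γ ≤ ℵ₁) (x : L → Set P) :
    FewerThan γ x ⊆ AtMost ℵ₀ x := by
  classical
  intro p hp
  have hp1 := mem_fex.1 hp
  refine mem_fex.2 fun q hq => ?_
  obtain ⟨q1, hq1, i, h1⟩ := hp1 q hq
  obtain ⟨q2, hq2, g, h2⟩ := mem_fex.1 h1 q1 le_rfl
  have hc : #(Iio i) ≤ #(Kt ℵ₀) := by
    rw [mk_ord_toType]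
    have h3 : #(Iio i) < γ := mk_Iio_toType_ord_lt i
    have h4 : #(Iio i) < ℵ₁ := h3.trans_le hγ
    rwa [← succ_aleph0, Order.lt_succ_iff] at h4
  obtain ⟨f⟩ := hc
  refine ⟨q2, hq2.trans hq1, fun k l => {r | ∃ k', f k' = k ∧ r ∈ meets (g k' l)}, ?_, ?_⟩
  · intro k l l'
    refine mem_fimp.2 fun r hr h3 => ?_
    obtain ⟨r1, hr1, s, ⟨k1, hk1, hs⟩, hs1⟩ := h3.1 r le_rfl
    obtain ⟨r2, hr2, t, ⟨k2, hk2, ht⟩, ht1⟩ := h3.2 r1 hr1
    have hk : k1 = k2 := f.injective (hk1.trans hk2.symm)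
    subst hk
    obtain ⟨r3, hr3, h4⟩ := mem_fimp.1 (h2.1 k1 l l') r2 ((hr2.trans hr1).trans hr)
      ⟨down_meets _ _ hs _ (hr2.trans hs1), down_meets _ _ ht _ ht1⟩
    exact ⟨r3, (hr3.trans hr2).trans hr1, h4⟩
  · intro l
    refine fimp_mono (fex_mono_index (fun k => ⟨f k, ?_⟩)) (h2.2 l)
    intro r hr
    exact fun q hq => ⟨q, le_rfl, q, ⟨k, rfl, down_meets _ _ hr _ hq⟩, le_rfl⟩

theorem only_of_split : Omega2NotOmega1Guessing P ⊆ GuessingOnlyAtOmega2 P := by
  intro p hp L hL F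
  refine fimp_mono (fex_mono fun Y => ?_) (hp L hL F)
  rintro r ⟨h1, h2, h3⟩
  refine ⟨h1, h2, fun γ hγ => ?_⟩
  refine fex_mono (fun d => ?_) h3
  rintro s ⟨h4, h5, h6⟩
  exact ⟨h4, fun j => fimp_anti (fewerThan_atMost hγ (Y j)) (h5 j), h6⟩

end

end Pool.Agent.W873.Vi
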